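import Pool.Agent.MP_c54dba_ag.Defs

/-! Interpolated lc structures on a variety of dimension `n + 1`, in terms of valuations of the
function field `K`. An affine chart is a subalgebra `A` of `K`. -/

set_option autoImplicit false

namespace Pool.Agent.MP_c54dba_ag.H70

variable {K : Type} [Field K] [Algebra ℂ K]

/-- `v` has value group `ℤ`, a centre on `Spec A`, and `n` elements of `S` have algebraically
independent residues. For `S = K` these are the prime divisors over `Spec A`, for `S = A` the prime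
divisors on `Spec A`. -/
def DivN (n : ℕ) (A : Subalgebra ℂ K) (S : Set K) (v : Val K) : Prop :=
  (∃ π, v π = 1) ∧ (∀ a ∈ A, 0 ≤ v a) ∧ ∃ s : Fin n → K, (∀ i, s i ∈ S) ∧
    ∀ p : MvPolynomial (Fin n) ℂ, p ≠ 0 → v (MvPolynomial.aeval s p) = 0

/-- The `ℝ`-divisor `D` is `ℝ`-Cartier at the centre of `E` on `Spec A`, and its pull-back has
multiplicity `x` along `E`. -/
def PullN (n : ℕ) (A : Subalgebra ℂ K) (D : Val K → ℝ) (E : Val K) (x : ℝ) : Prop :=
  ∃ (k : ℕ) (c : Fin k → ℝ) (f : Fin k → K), (∀ i, f i ≠ 0) ∧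
    (∀ P, DivN n A A P → (∀ a ∈ A, 0 < P a → 0 < E a) → D P = ∑ i, c i * ord P (f i)) ∧
    x = ∑ i, c i * ord E (f i)

/-- `(X, F, B^ninv + (1 - t) B^inv, t)` is lc; `δ` spans `F` and `τ` spans `T_X` generically. -/
def LCN (n : ℕ) {r : ℕ} (U : Set (Subalgebra ℂ K)) (δ : Fin r → Derivation ℂ K K)
    (τ : Fin (n + 1) → Derivation ℂ K K) (B : Val K → ℝ) (t : ℝ) : Prop :=
  ∀ A ∈ U, ∀ E, DivN n A Set.univ E → ∃ x,
    PullN n A (fun P => t * can δ P + (1 - t) * can τ P +
      (eps δ P * B P + (1 - t) * ((1 - eps δ P) * B P))) E x ∧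
    x - (t * can δ E + (1 - t) * can τ E) ≤ t * eps δ E + (1 - t)

end Pool.Agent.MP_c54dba_ag.H70
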