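import Pool.Agent.MP_c54dba_ag.Mg.Main
import Pool.Agent.MP_c54dba_ag.H70.Defs

attribute [-instance] instIsIntegralQuotientIdeal Subalgebra.instSMulSubtypeMem LieAlgebra.toModule
  NormedAlgebra.toAlgebra ContinuousSemilinearMapClass.toSemilinearMapClass
  RightPreLieAlgebra.toModule LeftPreLieAlgebra.toModule SubalgebraClass.toAlgebra RKHS.instFunLike
  littleWedderburn IsPrincipalIdealRing.of_isNoetherianRing_of_isBezout NormedSpace.toModule
  Module.Flat.of_free CoalgHomClass.toSemilinearMapClass instCharZeroOfIsSemireal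
  IsAffineAddMonoid.mk SemilinearIsometryClass.toSemilinearMapClass
  NonUnitalAlgHomClass.instSemilinearMapClassOfNonUnitalAlgSemiHomClassToMonoidHomRingHom
  RingHomClass.toLinearMapClassNNRat MonTypeEquivalenceMon.monMonoid
  instNonUnitalAlgHomClassOfNonUnitalAlgEquivClass RingHomClass.toLinearMapClassRat
  AlgHomClass.linearMapClass Algebra.instEtaleOfIsStandardSmoothOfRelativeDimensionOfNatNat
  ContinuousMonoidHom.instCoeOutOfMonoidHomClassOfContinuousMapClass Ideal.Quotient.algebra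
  BialgHomClass.toAlgHomClass Module.Flat.instOfIsDedekindDomainOfIsTorsionFree instCoeTCOfCoe
  NormedField.toField SemigroupAction.toSMul SubringClass.toCommRing SemilatticeInf.toPartialOrder
  KleeneAlgebra.toIdemSemiring Algebra.instEtaleOfIsStandardEtale GradedMonoid.GradeZero.smul
  IdemCommSemiring.toIdemSemiring Group.IsPerfect.subsingleton_of_isMulCommutative
  Module.FaithfullyFlat.of_isIntegral_of_isDomain IsArtinianRing.instDecompositionMonoid
  NonUnitalAlgHomClass.toNonUnitalRingHomClass SemilinearEquivClass.instSemilinearMapClass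
  NormedCommRing.toCommRing MulSemiringAction.toDistribMulAction instIsFractionRing instSMulZeroClass
  Algebra.Etale.finitePresentation IsometryClass.instCoeOutIsometryEquiv
  SeminormedCommRing.toCommRing RCLike.charZero_rclike NumberField.to_charZero Bialgebra.toAlgebra
  ContDiffMapSupportedInClass.toDFunLike
  ContinuousAddMonoidHom.instCoeOutOfAddMonoidHomClassOfContinuousMapClass
  Algebra.IsFiniteSplit.instFinitePresentation instCoeTOfCoeDep BialgHomClass.toMonoidHomClass
  MulSemiringActionSemiHomClass.toDistribMulActionSemiHomClass LieRing.toAddCommGroup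
  TestFunctionClass.toDFunLike MulRingSeminormClass.toMonoidWithZeroHomClass
  SMulWithZero.toSMulZeroClass ValuationClass.toMonoidWithZeroHomClass Unique.instSubsingleton
  HomeomorphClass.instCoeOutHomeomorph BooleanRing.toRing EuclideanDomain.toCommRing
  NormedDivisionRing.toDivisionRing Action.FintypeCat.instMulActionObjFiniteOf
  instIsLeftCancelAddOfAddLeftReflectLE LieAdmissibleRing.toNonUnitalNonAssocRing Complex.instModule
  Finsupp.instNonUnitalNonAssocSemiring CentroidHomClass.toAddMonoidHomClass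
  LinearOrderedAddCommGroupWithTop.toAddCommMonoid RingHomInvPair.triples₂ instCoeTC

section

/-! Divisorial valuations of a function field of dimension `n + 1`. -/

set_option autoImplicit false

namespace Pool.Agent.MP_c54dba_ag.H70

open Polynomial

/-- polynomials in `n` variables -/
abbrev MP (n : ℕ) : Type := MvPolynomial (Fin n) ℂ

variable {L : Type} [Field L] [Algebra ℂ L] {w : Val L} {n : ℕ}

/-- the residues of the `s i` are algebraically independent -/
def RI (w : Val L) (s : Fin n → L) : Prop := ∀ p : MP n, p ≠ 0 → Un w (MvPolynomial.aeval s p)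

lemma RI.triv {s : Fin n → L} (h : RI w s) : Triv w := fun c hc => by
  simpa using h (MvPolynomial.C c) (MvPolynomial.C_ne_zero.mpr hc)

lemma RI.ge {s : Fin n → L} (h : RI w s) (p : MP n) : Ge w 0 (MvPolynomial.aeval s p) := by
  by_cases hp : p = 0
  · rw [hp, map_zero]; exact Ge.zero _
  · exact (h p hp).ge

lemma divN_iff {A : Subalgebra ℂ L} {S : Set L} {v : Val L} :
    DivN n A S v ↔ (∃ π, π ≠ 0 ∧ ord v π = 1) ∧ (∀ a ∈ A, Ge v 0 a) ∧
      ∃ s : Fin n → L, (∀ i, s i ∈ S) ∧ RI v s := by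
  simp only [DivN, RI, un_iff, ge0_iff, ← val_eq_iff, WithTop.coe_one]

/-- evaluation of a polynomial in `n + 1` variables -/
noncomputable def ev (s : Fin n → L) (h : L) : (MP n)[X] →+* L :=
  eval₂RingHom (MvPolynomial.aeval s : MP n →ₐ[ℂ] L).toRingHom h

variable {s : Fin n → L} {e : L}

lemma ev_C (h : L) (p : MP n) : ev s h (C p) = MvPolynomial.aeval s p := by simp [ev]

lemma ev_X (h : L) : ev s h X = h := by simp [ev]

lemma ev_monomial (h : L) (k : ℕ) (p : MP n) :
    ev s h (monomial k p) = MvPolynomial.aeval s p * h ^ k := by simp [ev]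

lemma RI.ev (h : RI w s) {z : L} (hz : Ge w 0 z) (P : (MP n)[X]) : Ge w 0 (ev s z P) := by
  induction P using Polynomial.induction_on' with
  | add p q hp hq => rw [map_add]; exact hp.add hq
  | monomial k a => rw [ev_monomial]; exact (h.ge a).mul0 (hz.pow k)

lemma ev_split (e : L) (P : (MP n)[X]) :
    ev s e P = MvPolynomial.aeval s (P.coeff 0) + e * ev s e P.divX := by
  conv_lhs => rw [← P.divX_mul_X_add]
  rw [map_add, map_mul, ev_X, ev_C]; ring

lemma RI.deriv (hs : RI w s) {D : Derivation ℂ L L} {k : ℤ} (hD : ∀ i, Ge w k (D (s i))) (p : MP n) :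
    Ge w k (D (MvPolynomial.aeval s p)) := by
  induction p using MvPolynomial.induction_on with
  | C a => rw [MvPolynomial.algHom_C, D.map_algebraMap]; exact Ge.zero _
  | add p q hp hq => rw [map_add, map_add]; exact hp.add hq
  | mul_X p i hp =>
    rw [map_mul, D.leibniz, MvPolynomial.aeval_X]
    exact ((hs.ge p).mul0 (hD i)).add ((by simpa using hs.ge (.X i) : Ge w 0 (s i)).mul0 hp)

lemma RI.deriv_ev (hs : RI w s) {h : L} (hh : Ge w 0 h) {D : Derivation ℂ L L} {k : ℤ}
    (hD : ∀ i, Ge w k (D (s i))) (P : (MP n)[X]) :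
    Ge w k (D (H70.ev s h P) - H70.ev s h (derivative P) * D h) := by
  induction P using Polynomial.induction_on' with
  | add p q hp hq =>
    rw [map_add, map_add, map_add, map_add, add_mul, add_sub_add_comm]
    exact hp.add hq
  | monomial j a =>
    rw [derivative_monomial, ev_monomial, ev_monomial, D.leibniz, D.leibniz_pow, map_mul, map_natCast]
    have : MvPolynomial.aeval s a • j • h ^ (j - 1) • D h + h ^ j • D (MvPolynomial.aeval s a) -
        MvPolynomial.aeval s a * (j : L) * h ^ (j - 1) * D h = h ^ j * D (MvPolynomial.aeval s a) := by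
      simp only [smul_eq_mul, nsmul_eq_mul]; ring
    rw [this]
    exact (hh.pow j).mul0 (hs.deriv hD a)

/-- an element of positive order and `n` elements with independent residues -/
structure Fr (w : Val L) (e : L) (s : Fin n → L) : Prop where
  ne : e ≠ 0
  pos : 0 < ord w e
  ri : RI w s

lemma Fr.ge1 (F : Fr w e s) : Ge w 1 e := fun _ => F.pos

lemma Fr.ev_ge (F : Fr w e s) (P : (MP n)[X]) : Ge w 0 (ev s e P) := F.ri.ev (F.ge1.mono zero_le_one) P

lemma Fr.ev_un (F : Fr w e s) {P : (MP n)[X]} (h : P.coeff 0 ≠ 0) : Un w (ev s e P) := by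
  rw [ev_split]
  exact (F.ri _ h).add (F.ge1.mul (F.ev_ge _))

lemma Fr.ev_ge1 (F : Fr w e s) {P : (MP n)[X]} (h : P.coeff 0 = 0) : Ge w 1 (ev s e P) := by
  rw [ev_split, h, map_zero, zero_add]
  exact F.ge1.mul (F.ev_ge _)

lemma Fr.inj (F : Fr w e s) : Function.Injective (ev s e) := by
  refine (injective_iff_map_eq_zero _).mpr fun P hP => by_contra fun h0 => ?_
  obtain ⟨k, Q, hQ, rfl⟩ := WfDvdMonoid.max_power_factor' h0 (not_isUnit_X (R := MP n))
  rw [map_mul, map_pow, ev_X] at hP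
  exact mul_ne_zero (pow_ne_zero _ F.ne) (F.ev_un (mt X_dvd_iff.mpr hQ)).1 hP

variable (F : Fr w e s) (ht : Algebra.trdeg ℂ L = (n + 1 : ℕ))
include F ht

lemma Fr.alg :
    letI := (ev s e).toAlgebra
    Algebra.IsAlgebraic (MP n)[X] L := by
  letI := (ev s e).toAlgebra
  have : IsScalarTower ℂ (MP n)[X] L := .of_algebraMap_eq fun c => by
    simp [RingHom.algebraMap_toAlgebra, ev]
  have : FaithfulSMul (MP n)[X] L := (faithfulSMul_iff_algebraMap_injective _ _).mpr F.inj
  have h1 := trdeg_add_eq ℂ (MP n) (A := (MP n)[X])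
  have h2 := trdeg_add_eq ℂ (MP n)[X] (A := L)
  rw [Polynomial.trdeg_of_isDomain, MvPolynomial.trdeg_of_isDomain] at h1
  rw [← h1, ht] at h2
  refine trdeg_eq_zero_iff.mp ?_
  have h3 : Algebra.trdeg (MP n)[X] L + (n + 1 : ℕ) = 0 + (n + 1 : ℕ) := by
    rw [add_comm, zero_add]; simpa only [Nat.cast_add, Nat.cast_one, Cardinal.mk_fintype, Fintype.card_fin, Cardinal.lift_id] using h2
  exact (Cardinal.add_nat_inj _).mp h3

lemma Fr.rel (z : L) :
    ∃ q : (MP n)[X][X], (∃ i, (q.coeff i).coeff 0 ≠ 0) ∧ q.eval₂ (ev s e) z = 0 := by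
  letI := (ev s e).toAlgebra
  obtain ⟨q, hq, hz⟩ := (F.alg ht).isAlgebraic z
  obtain ⟨k, Q, hQ, rfl⟩ := WfDvdMonoid.max_power_factor' (α := (MP n)[X][X]) hq (x := C X)
    (fun h => not_isUnit_X (R := MP n) (isUnit_C.mp h))
  refine ⟨Q, ?_, ?_⟩
  · rw [C_dvd_iff_dvd_coeff] at hQ
    push Not at hQ
    obtain ⟨i, hi⟩ := hQ
    exact ⟨i, mt X_dvd_iff.mpr hi⟩
  · rw [map_mul, map_pow, aeval_C, RingHom.algebraMap_toAlgebra, ev_X] at hz
    exact (mul_eq_zero.mp hz).resolve_left (pow_ne_zero _ F.ne)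

lemma Fr.res {z : L} (hz : Ge w 0 z) : ∃ P : (MP n)[X], P ≠ 0 ∧ Ge w 1 (ev s z P) := by
  obtain ⟨q, ⟨i, hi⟩, hq⟩ := F.rel ht z
  refine ⟨q.map constantCoeff, fun h => hi ?_, ?_⟩
  · simpa using congrArg (fun P => P.coeff i) h
  · have key : ∀ q : (MP n)[X][X], Ge w 1 (q.eval₂ (ev s e) z - ev s z (q.map constantCoeff)) := by
      intro q
      induction q using Polynomial.induction_on' with
      | add p q hp hq =>
        rw [eval₂_add, Polynomial.map_add, map_add, add_sub_add_comm]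
        exact hp.add hq
      | monomial k a =>
        rw [eval₂_monomial, map_monomial, ev_monomial, ← sub_mul, ev_split, constantCoeff_apply,
          add_sub_cancel_left]
        exact (F.ge1.mul (F.ev_ge _)).mul (hz.pow k)
    have := (key q).neg
    rwa [hq, zero_sub, neg_neg] at this

lemma Fr.horner {z : L} (hz : Ge w 0 z) :
    ∃ c, Un w c ∧ ∀ V : ValuationSubring L, (∀ P, ev s e P ∈ V) → c ∈ V ∧ c * z ∈ V := by
  classical
  obtain ⟨q, ⟨i, hi⟩, hq⟩ := F.rel ht z
  let c : ℕ → L := fun j => (divX^[j] q).eval₂ (ev s e) z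
  have hco : ∀ j k, (divX^[j] q).coeff k = q.coeff (k + j) := by
    intro j
    induction j with
    | zero => intro k; rfl
    | succ j ih => intro k; rw [Function.iterate_succ_apply', coeff_divX, ih]; congr 1; ring
  have hrec : ∀ j, c j = c (j + 1) * z + ev s e (q.coeff j) := by
    intro j
    simp only [c]
    conv_lhs => rw [← (divX^[j] q).divX_mul_X_add]
    rw [eval₂_add, eval₂_mul_X, eval₂_C, Function.iterate_succ_apply', hco, zero_add]
  have hV : ∀ V : ValuationSubring L, (∀ P, ev s e P ∈ V) → ∀ j, c j ∈ V := by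
    intro V hV j
    by_cases hzV : z ∈ V
    · simp only [c, eval₂_eq_sum_range]
      exact sum_mem fun k _ => mul_mem (hV _) (pow_mem hzV _)
    · have hz0 : z ≠ 0 := fun h => hzV (h ▸ V.zero_mem)
      induction j with
      | zero => exact (show c 0 = 0 from hq) ▸ V.zero_mem
      | succ j ih =>
        have : c (j + 1) = (c j - ev s e (q.coeff j)) * z⁻¹ := by rw [hrec j]; field_simp; ring
        rw [this]
        exact mul_mem (sub_mem ih (hV _)) ((V.mem_or_inv_mem z).resolve_left hzV)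
  have hile : i ≤ q.natDegree := le_natDegree_of_ne_zero fun h => hi (by rw [h, coeff_zero])
  let j := Nat.findGreatest (fun k => (q.coeff k).coeff 0 ≠ 0) q.natDegree
  have hj : (q.coeff j).coeff 0 ≠ 0 := Nat.findGreatest_spec (P := fun k => (q.coeff k).coeff 0 ≠ 0) hile hi
  have hj' : ∀ k, j < k → (q.coeff k).coeff 0 = 0 := by
    intro k hk
    by_cases hkn : k ≤ q.natDegree
    · exact of_not_not (Nat.findGreatest_is_greatest hk hkn)
    · rw [coeff_eq_zero_of_natDegree_lt (not_le.mp hkn), coeff_zero]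
  have hun : Un w (c j) := by
    rw [hrec, add_comm]
    refine (F.ev_un hj).add (Ge.mul (m := 1) ?_ hz)
    simp only [c, eval₂_eq_sum_range]
    exact Ge.sum fun k _ => (F.ev_ge1 (by rw [hco]; exact hj' _ (by omega))).mul (hz.pow k)
  obtain ⟨k, hk⟩ : ∃ k, j = k + 1 :=
    Nat.exists_eq_succ_of_ne_zero fun h => hun.1 (by rw [h]; exact hq)
  refine ⟨c j, hun, fun V h => ⟨hV V h j, ?_⟩⟩
  rw [hk, ← sub_eq_iff_eq_add.mpr (hrec k)]
  exact sub_mem (hV V h k) (h _)

variable [Algebra.EssFiniteType ℂ L]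

lemma Fr.bdd (D : Derivation ℂ L L) : ∃ N : ℤ, ∀ z, Ge w 0 z → Ge w N (D z) := by
  classical
  letI := (ev s e).toAlgebra
  have : IsScalarTower ℂ (MP n)[X] L := .of_algebraMap_eq fun c => by
    simp [RingHom.algebraMap_toAlgebra, ev]
  have : FaithfulSMul (MP n)[X] L := (faithfulSMul_iff_algebraMap_injective _ _).mpr F.inj
  have := F.alg ht
  letI := FractionRing.liftAlgebra (MP n)[X] L
  have := FractionRing.isScalarTower_liftAlgebra (MP n)[X] L
  have : Algebra.EssFiniteType (MP n)[X] L := .of_comp ℂ _ _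
  have : Algebra.EssFiniteType (FractionRing (MP n)[X]) L := .of_comp (MP n)[X] _ _
  have : Algebra.IsAlgebraic (FractionRing (MP n)[X]) L :=
    (IsFractionRing.comap_isAlgebraic_iff (A := (MP n)[X])).mp ‹_›
  have : Module.Finite (FractionRing (MP n)[X]) L := Algebra.finite_of_essFiniteType_of_isAlgebraic
  have := IsIntegralClosure.finite (MP n)[X] (FractionRing (MP n)[X]) L (integralClosure (MP n)[X] L)
  have : Algebra.FiniteType ℂ (integralClosure (MP n)[X] L) :=
    .trans (S := (MP n)[X]) (.trans (S := MP n) inferInstance inferInstance) inferInstance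
  obtain ⟨t, ht'⟩ := Algebra.FiniteType.out (R := ℂ) (A := integralClosure (MP n)[X] L)
  have h0 : ∀ y : integralClosure (MP n)[X] L, Ge w 0 (y : L) := fun y => ge_of_integral F.ev_ge y.2
  obtain ⟨N, hN⟩ := (t.image fun y : integralClosure (MP n)[X] L => ord w (D y)).bddBelow
  have h1 : ∀ y : integralClosure (MP n)[X] L, Ge w N (D y) := by
    intro y
    have hy : y ∈ Algebra.adjoin ℂ (t : Set (integralClosure (MP n)[X] L)) := ht' ▸ Algebra.mem_top
    induction hy using Algebra.adjoin_induction with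
    | mem x hx => exact fun _ => hN (Finset.mem_coe.mpr (Finset.mem_image_of_mem _ hx))
    | algebraMap r =>
      have : ((algebraMap ℂ (integralClosure (MP n)[X] L) r : integralClosure (MP n)[X] L) : L) =
          algebraMap ℂ L r := (IsScalarTower.algebraMap_apply ℂ _ L r).symm
      rw [this, D.map_algebraMap]
      exact Ge.zero _
    | add x y _ _ hx hy => rw [Subalgebra.coe_add, map_add]; exact hx.add hy
    | mul x y _ _ hx hy =>
      rw [Subalgebra.coe_mul, D.leibniz]
      exact ((h0 x).mul0 hy).add ((h0 y).mul0 hx)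
  have : IsIntegrallyClosedIn (integralClosure (MP n)[X] L).toSubring L :=
    inferInstanceAs (IsIntegrallyClosedIn (integralClosure (MP n)[X] L) L)
  refine ⟨N, fun z hz => ?_⟩
  obtain ⟨c, hc, hV⟩ := F.horner ht hz
  have hmem : ∀ y, (∀ V : ValuationSubring L, (∀ P, ev s e P ∈ V) → y ∈ V) →
      y ∈ integralClosure (MP n)[X] L := by
    intro y hy
    by_contra hn
    obtain ⟨V, h2, h3⟩ := Subring.exists_le_valuationSubring_of_isIntegrallyClosedIn
      (R := (integralClosure (MP n)[X] L).toSubring) hn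
    exact h3 (hy V fun P => h2 ((integralClosure (MP n)[X] L).algebraMap_mem P))
  have a1 := h1 ⟨c, hmem _ fun V h => (hV V h).1⟩
  have a2 := h1 ⟨c * z, hmem _ fun V h => (hV V h).2⟩
  refine hc.cancel ?_
  have e1 : c * D z = D (c * z) - z * D c := by rw [D.leibniz]; simp only [smul_eq_mul]; ring
  rw [e1]
  exact a2.sub (hz.mul0 a1)

omit [Algebra.EssFiniteType ℂ L] in
lemma Fr.preg {D : Derivation ℂ L L} {k : ℤ} (hD : Reg w (k - 1) D) (hs : ∀ i, Ge w k (D (s i)))
    {h : L} (hh : Ge w 0 h) : Ge w k (D h) := by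
  obtain ⟨P, hP0, hP⟩ := F.res ht hh
  induction hn : P.natDegree using Nat.strong_induction_on generalizing P with
  | _ m ih =>
    by_cases hd : P.natDegree = 0
    · rw [eq_C_of_natDegree_eq_zero hd, ev_C] at hP
      refine absurd hP (F.ri _ fun h0 => hP0 ?_).not_ge
      rw [eq_C_of_natDegree_eq_zero hd, h0, C_0]
    by_cases h1 : Ge w 1 (ev s h (derivative P))
    · exact ih _ (hn ▸ natDegree_derivative_lt hd) _
        (fun h0 => hd (derivative_eq_zero.mp h0)) h1 rfl
    refine ((F.ri.ev hh _).un h1).cancel ?_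
    have := ((hD.ge hP).mono (show k ≤ 1 + (k - 1) by omega)).sub (F.ri.deriv_ev hh hs P)
    rwa [sub_sub_cancel] at this

omit F ht [Algebra.EssFiniteType ℂ L] in
lemma reg_of_units (h1 : e ≠ 0) (h2 : ord w e = 1) (h3 : Triv w) {D : Derivation ℂ L L} {j : ℤ}
    (he : Ge w (1 + j) (D e)) (hu : ∀ u, Un w u → Ge w j (D u)) : Reg w j D := by
  intro g
  by_cases hg : g = 0
  · rw [hg, map_zero]; exact Ge.zero _
  have hun : Un w (g * e ^ (-ord w g)) :=
    ⟨mul_ne_zero hg (zpow_ne_zero _ h1), by rw [ord_mul hg (zpow_ne_zero _ h1), ord_zpow, h2]; ring⟩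
  have e1 : D g = e ^ ord w g * D (g * e ^ (-ord w g)) + (ord w g : L) * (g * (e⁻¹ * D e)) := by
    rw [D.leibniz, D.leibniz_zpow, zpow_sub_one₀ h1, zpow_neg]
    have := zpow_ne_zero (ord w g) h1
    simp only [smul_eq_mul, zsmul_eq_mul, Int.cast_neg]
    field_simp
    ring
  rw [e1]
  refine (((Ge.self _).mul (hu _ hun)).mono (by rw [ord_zpow, h2, mul_one])).add
    ((h3.intge _).mul0 ((Ge.self g).mul (((Ge.self e⁻¹).mul he).mono (by rw [ord_inv]; omega))))

lemma Fr.reg (h1 : ord w e = 1) {D : Derivation ℂ L L} {k : ℤ} (he : Ge w (1 + k) (D e))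
    (hs : ∀ i, Ge w k (D (s i))) : Reg w k D := by
  obtain ⟨N, hN⟩ := F.bdd ht D
  have h0 : Reg w (min N k) D :=
    reg_of_units F.ne h1 F.ri.triv (he.mono (by omega)) fun u hu => (hN u hu.ge).mono (min_le_left _ _)
  have : ∀ j, min N k ≤ j → j ≤ k → Reg w j D := by
    intro j hj
    induction j, hj using Int.leInduction with
    | base => exact fun _ => h0
    | succ j _ ih =>
      intro hjk
      exact reg_of_units F.ne h1 F.ri.triv (he.mono (by omega)) fun u hu =>
        F.preg ht (by simpa using ih (by omega)) (fun i => (hs i).mono hjk) hu.ge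
  exact this k (min_le_right _ _) le_rfl

lemma Fr.exists_reg (h1 : ord w e = 1) (D : Derivation ℂ L L) : ∃ k, Reg w k D := by
  obtain ⟨N, hN⟩ := F.bdd ht D
  exact ⟨N - 1, reg_of_units F.ne h1 F.ri.triv ((hN e (F.ge1.mono zero_le_one)).mono (by omega))
    fun u hu => (hN u hu.ge).mono (by omega)⟩

end Pool.Agent.MP_c54dba_ag.H70

end

section

/-! Weighted filtrations of a local ring with coordinates and dual vector fields. -/

set_option autoImplicit false

namespace Pool.Agent.MP_c54dba_ag.H70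

open MvPolynomial IsLocalRing Finsupp

variable {S : Type} [CommRing S] [Algebra ℂ S] [IsLocalRing S] {d : ℕ}

/-- coordinates with the dual vector fields -/
structure Co (x : Fin d → S) (X : Fin d → Derivation ℂ S S) : Prop where
  xM : ∀ i, x i ∈ maximalIdeal S
  res : ∀ r, ∃ c, r - algebraMap ℂ S c ∈ Ideal.span (Set.range x)
  Xx : ∀ i j, X i (x j) = if i = j then 1 else 0

/-- elements of weighted order at least `k` -/
def WI (x : Fin d → S) (w : Fin d → ℕ) (k : ℕ) : Ideal S :=
  Ideal.span {r | ∃ α : Fin d →₀ ℕ, k ≤ weight w α ∧ r = aeval x (monomial α (1 : ℂ))}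

variable {x : Fin d → S} {X : Fin d → Derivation ℂ S S} {w : Fin d → ℕ} {k l : ℕ}

omit [IsLocalRing S] in
lemma WI_gen {α : Fin d →₀ ℕ} (h : k ≤ weight w α) (c : ℂ) : aeval x (monomial α c) ∈ WI x w k := by
  rw [← mul_one c, ← C_mul_monomial, map_mul]
  exact Ideal.mul_mem_left _ _ (Ideal.subset_span ⟨α, h, rfl⟩)

omit [IsLocalRing S] in
lemma WI_mono (h : l ≤ k) : WI x w k ≤ WI x w l :=
  Ideal.span_mono fun _ ⟨α, a, b⟩ => ⟨α, h.trans a, b⟩

omit [IsLocalRing S] in
lemma WI_zero (r : S) : r ∈ WI x w 0 := by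
  simpa using Ideal.mul_mem_left _ r (WI_gen (x := x) (w := w) (α := 0) (Nat.zero_le _) 1)

omit [IsLocalRing S] in
lemma WI_mul {f g : S} (hf : f ∈ WI x w k) (hg : g ∈ WI x w l) : f * g ∈ WI x w (k + l) := by
  refine (show WI x w k * WI x w l ≤ _ from ?_) (Ideal.mul_mem_mul hf hg)
  rw [WI, WI, Ideal.span_mul_span', Ideal.span_le]
  rintro _ ⟨_, ⟨α, a1, rfl⟩, _, ⟨β, b1, rfl⟩, rfl⟩
  refine Ideal.subset_span ⟨α + β, by rw [map_add]; omega, ?_⟩
  simp only [← map_mul, monomial_mul, mul_one]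

omit [IsLocalRing S] in
lemma WI_aeval {P : MP d} (h : ∀ α, coeff α P ≠ 0 → k ≤ weight w α) : aeval x P ∈ WI x w k := by
  rw [P.as_sum, map_sum]
  exact sum_mem fun α hα => WI_gen (h α (MvPolynomial.mem_support_iff.mp hα)) _

omit [IsLocalRing S] in
lemma WI_hom {P : MP d} (h : IsWeightedHomogeneous w P k) : aeval x P ∈ WI x w k :=
  WI_aeval fun _ hα => (h hα).ge

omit [IsLocalRing S] in
lemma WI_x (i : Fin d) : x i ∈ WI x w (w i) := by
  simpa using WI_hom (x := x) (isWeightedHomogeneous_X ℂ w i)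

omit [IsLocalRing S] in
lemma span_le_WI (h : ∀ i, k ≤ w i) : Ideal.span (Set.range x) ≤ WI x w k :=
  Ideal.span_le.mpr (by rintro _ ⟨i, rfl⟩; exact WI_mono (h i) (WI_x i))

lemma Co.aeval_deriv (C : Co x X) (i : Fin d) (P : MP d) : X i (aeval x P) = aeval x (pderiv i P) := by
  induction P using MvPolynomial.induction_on with
  | C a => rw [algHom_C, Derivation.map_algebraMap, pderiv_C, map_zero]
  | add p q hp hq => simp only [map_add, hp, hq]
  | mul_X p j hp =>
    rw [map_mul, Derivation.leibniz, hp, aeval_X, C.Xx, Derivation.leibniz, pderiv_X, Pi.single_apply]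
    by_cases h : i = j
    · simp [h]
    · simp [h, Ne.symm h]

lemma Co.WI_X (C : Co x X) (i : Fin d) {f : S} (hf : f ∈ WI x w k) : X i f ∈ WI x w (k - w i) := by
  induction hf using Submodule.span_induction with
  | mem r hr =>
    obtain ⟨α, a, rfl⟩ := hr
    rw [C.aeval_deriv, pderiv_monomial]
    by_cases h : α i = 0
    · simp [h]
    · exact WI_gen (by have := weight_sub_single_add (w := w) h; omega) _
  | zero => rw [map_zero]; exact zero_mem _
  | add f g _ _ hf hg => rw [map_add]; exact add_mem hf hg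
  | smul r f h hf =>
    rw [smul_eq_mul, Derivation.leibniz]
    exact add_mem (Ideal.mul_mem_left _ _ hf) (Ideal.mul_mem_right _ _ (WI_mono (by omega) h))

lemma Co.mono_mem (C : Co x X) (α : Fin d →₀ ℕ) :
    aeval x (monomial α (1 : ℂ)) ∈ maximalIdeal S ^ α.degree := by
  rw [aeval_monomial, map_one, one_mul, Finsupp.prod, degree_apply, ← Finset.prod_pow_eq_pow_sum]
  exact Ideal.prod_mem_prod fun i _ => Ideal.pow_mem_pow (C.xM i) _

lemma Co.WI_pow (C : Co x X) {W : ℕ} (h : ∀ i, w i ≤ W) (j : ℕ) :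
    WI x w (W * j + 1) ≤ maximalIdeal S ^ (j + 1) := by
  refine Ideal.span_le.mpr ?_
  rintro _ ⟨α, a, rfl⟩
  refine Ideal.pow_le_pow_right ?_ (C.mono_mem α)
  have : weight w α ≤ W * α.degree := by
    rw [weight_eq_sum, degree_eq_sum, Finset.mul_sum]
    exact Finset.sum_le_sum fun i _ => by rw [smul_eq_mul, mul_comm]; exact Nat.mul_le_mul_right _ (h i)
  exact Nat.succ_le_of_lt (Nat.lt_of_mul_lt_mul_left (a := W) (by omega))

lemma Co.WI_one (C : Co x X) : WI x w 1 ≤ maximalIdeal S := by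
  simpa only [mul_zero, zero_add, pow_one] using C.WI_pow (w := w) (W := Finset.univ.sup w) (fun i => Finset.le_sup (Finset.mem_univ i)) 0

lemma const_zero {c : ℂ} (h : algebraMap ℂ S c ∈ maximalIdeal S) : c = 0 :=
  by_contra fun hc => h ((Ne.isUnit hc).map _)

lemma Co.max_le (C : Co x X) : maximalIdeal S ≤ Ideal.span (Set.range x) := fun r hr => by
  obtain ⟨c, hc⟩ := C.res r
  have h1 : Ideal.span (Set.range x) ≤ maximalIdeal S :=
    Ideal.span_le.mpr (by rintro _ ⟨i, rfl⟩; exact C.xM i)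
  have := sub_mem hr (h1 hc)
  rw [sub_sub_cancel] at this
  rwa [const_zero this, map_zero, sub_zero] at hc

lemma Co.approx (C : Co x X) (hw : ∀ i, 1 ≤ w i) {f : S} (hf : f ∈ WI x w k) :
    ∃ H : MP d, IsWeightedHomogeneous w H k ∧ f - aeval x H ∈ WI x w (k + 1) := by
  induction hf using Submodule.span_induction with
  | mem r hr =>
    obtain ⟨α, a, rfl⟩ := hr
    rcases a.eq_or_lt with a | a
    · exact ⟨_, isWeightedHomogeneous_monomial w α 1 a.symm, by rw [sub_self]; exact zero_mem _⟩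
    · exact ⟨0, isWeightedHomogeneous_zero ℂ w k, by rw [map_zero, sub_zero]; exact WI_gen a _⟩
  | zero => exact ⟨0, isWeightedHomogeneous_zero ℂ w k, by simp⟩
  | add f g _ _ hf hg =>
    obtain ⟨H, a1, a2⟩ := hf
    obtain ⟨G, b1, b2⟩ := hg
    exact ⟨H + G, a1.add b1, by rw [map_add, add_sub_add_comm]; exact add_mem a2 b2⟩
  | smul r f h hf =>
    obtain ⟨H, a1, a2⟩ := hf
    obtain ⟨c, hc⟩ := C.res r
    refine ⟨MvPolynomial.C c * H, a1.C_mul c, ?_⟩
    rw [map_mul, algHom_C, smul_eq_mul, show r * f - algebraMap ℂ S c * aeval x H =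
      f * (r - algebraMap ℂ S c) + algebraMap ℂ S c * (f - aeval x H) by ring]
    exact add_mem (WI_mul h (span_le_WI hw hc)) (Ideal.mul_mem_left _ _ a2)

lemma Co.uniq (C : Co x X) (hw : ∀ i, 1 ≤ w i) {P : MP d} (h : aeval x P ∈ WI x w k) {α : Fin d →₀ ℕ}
    (hα : weight w α < k) : coeff α P = 0 := by
  induction hn : α.degree using Nat.strong_induction_on generalizing α P k with
  | _ m ih =>
    by_cases h0 : α = 0
    · subst h0
      have h1 : aeval x (P - MvPolynomial.C (coeff 0 P)) ∈ WI x w 1 := WI_aeval fun β hβ => by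
        by_contra hc
        have : β = 0 := by
          ext i
          have := le_weight w (s := i) (by have := hw i; omega) β
          simp only [Finsupp.coe_zero, Pi.zero_apply]
          omega
        simp [this] at hβ
      have := sub_mem (WI_mono (show 1 ≤ k by omega) h) h1
      rw [map_sub, sub_sub_cancel, algHom_C] at this
      exact const_zero (C.WI_one this)
    · obtain ⟨i, hi⟩ : ∃ i, α i ≠ 0 := by
        by_contra hc
        push Not at hc
        exact h0 (Finsupp.ext hc)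
      have e1 := weight_sub_single_add (w := w) hi
      have e2 : α - single i 1 + single i 1 = α := sub_add_single_one_cancel hi
      have e3 : (α - single i 1).degree < m := by
        have := congrArg degree e2
        rw [map_add, degree_single] at this
        omega
      have := ih _ e3 (C.aeval_deriv i P ▸ C.WI_X i h) (α := α - single i 1) (by omega) rfl
      rw [coeff_pderiv, e2] at this
      exact (mul_eq_zero.mp this).resolve_right (Nat.cast_add_one_ne_zero _)

lemma Co.hom_zero (C : Co x X) (hw : ∀ i, 1 ≤ w i) {H : MP d} (h : IsWeightedHomogeneous w H k)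
    (h' : aeval x H ∈ WI x w (k + 1)) : H = 0 := by
  ext α
  by_contra hc
  exact hc (C.uniq hw h' (by rw [h hc]; omega))

lemma Co.eul (C : Co x X) (hw : ∀ i, 1 ≤ w i) {f : S} (hf : f ∈ WI x w k) :
    ∑ i, (w i : S) * (x i * X i f) - k * f ∈ WI x w (k + 1) := by
  obtain ⟨H, a1, a2⟩ := C.approx hw hf
  have e1 := congrArg (aeval x) a1.sum_weight_X_mul_pderiv
  simp only [map_sum, map_mul, aeval_X, nsmul_eq_mul, ← C.aeval_deriv, map_natCast] at e1
  have e2 : ∑ i, (w i : S) * (x i * X i f) - k * f =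
      ∑ i, (w i : S) * (x i * X i (f - aeval x H)) - k * (f - aeval x H) := by
    simp only [map_sub, mul_sub, Finset.sum_sub_distrib, e1]; ring
  rw [e2]
  exact sub_mem (sum_mem fun i _ => Ideal.mul_mem_left _ _
    (WI_mono (by omega) (WI_mul (WI_x i) (C.WI_X i a2)))) (Ideal.mul_mem_left _ _ a2)

variable [IsNoetherianRing S]

lemma Co.krull (C : Co x X) {f : S} (h : ∀ k, f ∈ WI x w k) : f = 0 := by
  have : f ∈ ⨅ k, maximalIdeal S ^ k := Ideal.mem_iInf.mpr fun k => Ideal.pow_le_pow_right (Nat.le_succ k)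
    (C.WI_pow (W := Finset.univ.sup w) (fun i => Finset.le_sup (Finset.mem_univ i)) k (h _))
  rwa [Ideal.iInf_pow_eq_bot_of_isLocalRing _ (maximalIdeal.isMaximal S).ne_top, Ideal.mem_bot] at this

/-- the weighted order -/
lemma Co.exists_ord (C : Co x X) (hw : ∀ i, 1 ≤ w i) : ∃ o : S → ℕ,
    (∀ f, f ≠ 0 → ∀ k, f ∈ WI x w k ↔ k ≤ o f) ∧ ∀ f g, f ≠ 0 → g ≠ 0 → f * g ≠ 0 ∧ o (f * g) = o f + o g := by
  classical
  have h1 : ∀ f : S, ∃ o : ℕ, f ≠ 0 → ∀ k, f ∈ WI x w k ↔ k ≤ o := by
    intro f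
    by_cases hf : f = 0
    · exact ⟨0, fun h => absurd hf h⟩
    have h2 : ∃ k, f ∉ WI x w (k + 1) := by
      by_contra hc
      push Not at hc
      exact hf (C.krull fun k => WI_mono (Nat.le_succ k) (hc k))
    refine ⟨Nat.find h2, fun _ k => ⟨fun h => by_contra fun hc => Nat.find_spec h2 (WI_mono (by omega) h),
      fun h => ?_⟩⟩
    rcases k with _ | k
    · exact WI_zero f
    · exact of_not_not (Nat.find_min h2 h)
  choose o ho using h1
  refine ⟨o, ho, fun f g hf hg => ?_⟩
  have a0 := (ho f hf _).mpr le_rfl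
  have b0 := (ho g hg _).mpr le_rfl
  obtain ⟨H, a1, a2⟩ := C.approx hw a0
  obtain ⟨G, b1, b2⟩ := C.approx hw b0
  have h3 : f * g ∉ WI x w (o f + o g + 1) := fun h => by
    have h4 : aeval x (H * G) ∈ WI x w (o f + o g + 1) := by
      rw [map_mul, show aeval x H * aeval x G = f * g - f * (g - aeval x G) - aeval x G * (f - aeval x H) by ring]
      exact sub_mem (sub_mem h (WI_mono (by omega) (WI_mul a0 b2))) (WI_mono (by omega) (WI_mul (WI_hom b1) a2))
    rcases mul_eq_zero.mp (C.hom_zero hw (a1.mul b1) h4) with h5 | h5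
    · rw [h5, map_zero, sub_zero, ho f hf] at a2; omega
    · rw [h5, map_zero, sub_zero, ho g hg] at b2; omega
  have h0 : f * g ≠ 0 := fun h => h3 (h ▸ zero_mem _)
  have := (ho _ h0 _).mp (WI_mul a0 b0)
  rw [ho _ h0] at h3
  exact ⟨h0, by omega⟩

end Pool.Agent.MP_c54dba_ag.H70

end

section

/-! Change of coordinates; the local ring of a smooth point is factorial. -/

set_option autoImplicit false

namespace Pool.Agent.MP_c54dba_ag.H70

open MvPolynomial IsLocalRing Finsupp

section Change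

variable {S : Type} [CommRing S] [Algebra ℂ S] [IsLocalRing S] {d : ℕ}
  {x : Fin d → S} {X : Fin d → Derivation ℂ S S}

lemma der_sum {T : Type} [CommRing T] [Algebra ℂ T] {ι : Type} (s : Finset ι) (D : ι → Derivation ℂ T T)
    (f : T) : (∑ i ∈ s, D i) f = ∑ i ∈ s, D i f := by
  classical
  induction s using Finset.induction_on with
  | empty => simp only [Finset.sum_empty, Derivation.coe_zero, Pi.zero_apply]
  | insert a s h ih => rw [Finset.sum_insert h, Finset.sum_insert h, Derivation.add_apply, ih]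

lemma Co.res' (C : Co x X) (r : S) : ∃ c, r - algebraMap ℂ S c ∈ maximalIdeal S := by
  obtain ⟨c, hc⟩ := C.res r
  exact ⟨c, Ideal.span_le.mpr (by rintro _ ⟨i, rfl⟩; exact C.xM i) hc⟩

lemma det_unit {M M' : Matrix (Fin d) (Fin d) S} (h : ∀ i j, M i j - M' i j ∈ maximalIdeal S)
    (hM : IsUnit M.det) : IsUnit M'.det := by
  have : (residue S).mapMatrix M = (residue S).mapMatrix M' :=
    Matrix.ext fun i j => Ideal.Quotient.eq.mpr (h i j)
  rw [← residue_ne_zero_iff_isUnit, RingHom.map_det] at hM ⊢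
  rwa [← this]

lemma Co.change (C : Co x X) {y : Fin d → S} (hy : ∀ j, y j ∈ maximalIdeal S)
    (h : ∀ c : Fin d → ℂ, (∀ i, ∑ j, X i (y j) * algebraMap ℂ S (c j) ∈ maximalIdeal S) → c = 0) :
    ∃ N : Matrix (Fin d) (Fin d) S, Matrix.of (fun i j => X i (y j)) * N = 1 ∧
      Co y fun k => ∑ i, N k i • X i := by
  set M : Matrix (Fin d) (Fin d) S := Matrix.of fun i j => X i (y j) with hM
  choose ρ hρ using C.res'
  have h1 : IsUnit M.det := by
    refine det_unit (M := (algebraMap ℂ S).mapMatrix (Matrix.of fun i j => ρ (M i j)))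
      (fun i j => neg_sub (M i j) _ ▸ neg_mem (hρ _)) ?_
    rw [← RingHom.map_det]
    refine (Ne.isUnit fun h0 => ?_).map _
    obtain ⟨c, c0, hc⟩ := Matrix.exists_mulVec_eq_zero_iff.mpr h0
    refine c0 (h c fun i => ?_)
    have e1 := congrArg (algebraMap ℂ S) (congrFun hc i)
    simp only [Matrix.mulVec, dotProduct, Matrix.of_apply, map_sum, map_mul, Pi.zero_apply, map_zero] at e1
    rw [← sub_zero (Finset.sum _ _), ← e1, ← Finset.sum_sub_distrib]
    exact sum_mem fun j _ => by rw [← sub_mul]; exact Ideal.mul_mem_right _ _ (hρ _)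
  refine ⟨M⁻¹, Matrix.mul_nonsing_inv M h1, hy, fun r => ?_, fun k j => ?_⟩
  · choose u hu using fun j => Ideal.mem_span_range_iff_exists_fun.mp (C.max_le (hy j))
    have h2 : IsUnit (Matrix.of fun i j => u j i).det := det_unit (fun i j => by
      simp only [hM, Matrix.of_apply, ← hu j, map_sum, Derivation.leibniz, C.Xx, smul_eq_mul,
        Finset.sum_add_distrib, mul_ite, mul_one, mul_zero, Finset.sum_ite_eq, Finset.mem_univ, if_true,
        add_sub_cancel_left]
      exact sum_mem fun k _ => Ideal.mul_mem_right _ _ (C.xM k)) h1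
    obtain ⟨c, hc⟩ := C.res r
    refine ⟨c, Ideal.span_le.mpr ?_ hc⟩
    rintro _ ⟨i, rfl⟩
    have e1 : Matrix.vecMul x (Matrix.of fun i j => u j i) = y := funext fun j => by
      simp only [Matrix.vecMul, dotProduct, Matrix.of_apply, ← hu j, mul_comm]
    have e2 := congrFun (congrArg (fun z => Matrix.vecMul z (Matrix.of fun i j => u j i)⁻¹) e1) i
    simp only [Matrix.vecMul_vecMul, Matrix.mul_nonsing_inv _ h2, Matrix.vecMul_one] at e2
    rw [SetLike.mem_coe, e2]
    unfold Matrix.vecMul dotProduct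
    exact sum_mem fun j _ => Ideal.mul_mem_right _ _ (Ideal.subset_span (Set.mem_range_self j))
  · have := congrFun (congrFun (Matrix.nonsing_inv_mul M h1) k) j
    rw [der_sum]
    simpa only [hM, Derivation.coe_smul, Pi.smul_apply, smul_eq_mul, Matrix.mul_apply, Matrix.of_apply, Matrix.one_apply] using this

lemma Co.shear (C : Co x X) (i0 : Fin d) {y : Fin d → S} (hy : ∀ j, y j ∈ maximalIdeal S)
    (h1 : ∀ j, X j (y j) ∉ maximalIdeal S) (h2 : ∀ i j, i ≠ i0 → i ≠ j → X i (y j) ∈ maximalIdeal S) :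
    ∃ N : Matrix (Fin d) (Fin d) S, Matrix.of (fun i j => X i (y j)) * N = 1 ∧
      Co y fun k => ∑ i, N k i • X i := by
  refine C.change hy fun c hc => ?_
  have key : ∀ i, (∀ j, i ≠ j → X i (y j) * algebraMap ℂ S (c j) ∈ maximalIdeal S) → c i = 0 := by
    intro i hi
    have := sub_mem (hc i) (sum_mem (t := Finset.univ.erase i) fun j hj => hi j (Finset.ne_of_mem_erase hj).symm)
    rw [← Finset.add_sum_erase _ _ (Finset.mem_univ i), add_sub_cancel_right] at this
    exact const_zero (((maximalIdeal.isMaximal S).isPrime.mem_or_mem this).resolve_left (h1 i))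
  have k1 : ∀ i, i ≠ i0 → c i = 0 := fun i hi => key i fun j hj => Ideal.mul_mem_right _ _ (h2 i j hi hj)
  funext i
  by_cases hi : i = i0
  · exact key i fun j hj => by rw [k1 j (hi ▸ hj.symm), map_zero, mul_zero]; exact zero_mem _
  · exact k1 i hi

lemma Co.WI_eq (C : Co x X) (k : ℕ) : WI x 1 k = maximalIdeal S ^ k := by
  refine le_antisymm ?_ ?_
  · rcases k with _ | k
    · simp
    · simpa using C.WI_pow (w := 1) (W := 1) (fun _ => le_rfl) k
  · induction k with
    | zero => exact fun r _ => WI_zero r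
    | succ k ih =>
      rw [pow_succ]
      exact Ideal.mul_le.mpr fun r hr s hs => WI_mul (ih hr) (span_le_WI (fun _ => le_rfl) (C.max_le hs))

lemma Co.approx' (C : Co x X) (f : S) (N : ℕ) : ∃ P : MP d, f - aeval x P ∈ WI x 1 N := by
  induction N with
  | zero => exact ⟨0, WI_zero _⟩
  | succ N ih =>
    obtain ⟨P, hP⟩ := ih
    obtain ⟨H, -, hH⟩ := C.approx (fun _ => le_rfl) hP
    exact ⟨P + H, by rwa [map_add, ← sub_sub]⟩

lemma wt_one (α : Fin d →₀ ℕ) : weight 1 α = α.degree := by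
  rw [degree_eq_weight_one]; rfl

/-- the Taylor expansion -/
lemma Co.exists_taylor (C : Co x X) : ∃ T : S →+* MvPowerSeries (Fin d) ℂ,
    ∀ (f : S) (P : MP d) (N : ℕ), f - aeval x P ∈ maximalIdeal S ^ N ↔ (N : ℕ∞) ≤ (T f - P).order := by
  choose P hP using C.approx'
  let T : S → MvPowerSeries (Fin d) ℂ := fun f α => coeff α (P f (α.degree + 1))
  have key : ∀ (f : S) (Q : MP d) (N : ℕ), f - aeval x Q ∈ WI x 1 N → ∀ α : Fin d →₀ ℕ, α.degree < N →
      MvPowerSeries.coeff α (T f) = coeff α Q := by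
    intro f Q N h α hα
    have h1 := sub_mem (WI_mono hα h) (hP f (α.degree + 1))
    rw [sub_sub_sub_cancel_left, ← map_sub] at h1
    have := C.uniq (w := 1) (fun _ => le_rfl) h1 (α := α) (by rw [wt_one]; omega)
    rw [coeff_sub, sub_eq_zero] at this
    exact this
  refine ⟨{ toFun := T, map_one' := ?_, map_mul' := fun f g => ?_, map_zero' := ?_,
            map_add' := fun f g => ?_ }, fun f Q N => ⟨fun h => ?_, fun h => ?_⟩⟩
  · ext α
    rw [key 1 1 _ (by simp) α (Nat.lt_succ_self _), ← MvPolynomial.coe_one, MvPolynomial.coeff_coe]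
  · ext α
    have h1 := hP f (α.degree + 1)
    have h2 := hP g (α.degree + 1)
    rw [key (f * g) (P f (α.degree + 1) * P g (α.degree + 1)) _ (by
      rw [map_mul, show f * g - aeval x (P f (α.degree + 1)) * aeval x (P g (α.degree + 1)) =
        g * (f - aeval x (P f (α.degree + 1))) + aeval x (P f (α.degree + 1)) *
          (g - aeval x (P g (α.degree + 1))) by ring]
      exact add_mem (Ideal.mul_mem_left _ _ h1) (Ideal.mul_mem_left _ _ h2)) α (Nat.lt_succ_self _),
      MvPowerSeries.coeff_mul, MvPolynomial.coeff_mul]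
    refine Finset.sum_congr rfl fun p hp => ?_
    have := congrArg degree (Finset.HasAntidiagonal.mem_antidiagonal.mp hp)
    rw [map_add] at this
    rw [key f _ _ h1 _ (by omega), key g _ _ h2 _ (by omega)]
  · ext α
    rw [key 0 0 _ (by simp) α (Nat.lt_succ_self _), map_zero, MvPolynomial.coeff_zero]
  · ext α
    have h1 := hP f (α.degree + 1)
    have h2 := hP g (α.degree + 1)
    rw [key (f + g) (P f (α.degree + 1) + P g (α.degree + 1)) _ (by
      rw [map_add, add_sub_add_comm]; exact add_mem h1 h2) α (Nat.lt_succ_self _), map_add, coeff_add,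
      key f _ _ h1 _ (Nat.lt_succ_self _), key g _ _ h2 _ (Nat.lt_succ_self _)]
  · refine MvPowerSeries.nat_le_order fun α hα => ?_
    rw [map_sub, MvPolynomial.coeff_coe, sub_eq_zero]
    exact key f Q N (C.WI_eq N ▸ h) α hα
  · rw [← C.WI_eq, ← sub_add_sub_cancel _ (aeval x (P f N)), ← map_sub]
    refine add_mem (hP f N) (WI_aeval fun α hα => by_contra fun hc => hα ?_)
    rw [wt_one, not_le] at hc
    have := MvPowerSeries.coeff_of_lt_order (lt_of_lt_of_le (Nat.cast_lt.mpr hc) h)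
    rw [map_sub, MvPolynomial.coeff_coe] at this
    rw [coeff_sub, ← key f _ N (hP f N) α hc]
    exact this

end Change

lemma mem_span_X {d : ℕ} (s : Finset (Fin d)) (F : MvPowerSeries (Fin d) ℂ)
    (h : ∀ m : Fin d →₀ ℕ, (∀ i ∈ s, m i = 0) → MvPowerSeries.coeff m F = 0) :
    F ∈ Ideal.span (Set.range (MvPowerSeries.X : Fin d → MvPowerSeries (Fin d) ℂ)) := by
  induction s using Finset.induction_on generalizing F with
  | empty => rw [show F = 0 from MvPowerSeries.ext fun m => h m (by simp)]; exact zero_mem _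
  | insert a s _ ih =>
    let G : MvPowerSeries (Fin d) ℂ := fun m => if m a = 0 then MvPowerSeries.coeff m F else 0
    have hG : ∀ m, MvPowerSeries.coeff m G = if m a = 0 then MvPowerSeries.coeff m F else 0 := fun _ => rfl
    obtain ⟨u, hu⟩ := (MvPowerSeries.X_dvd_iff (s := a) (φ := F - G)).mpr fun m hm => by
      rw [map_sub, hG, if_pos hm, sub_self]
    rw [← sub_add_cancel F G, hu]
    refine add_mem (Ideal.mul_mem_right _ _ (Ideal.subset_span (Set.mem_range_self a))) (ih G fun m hm => ?_)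
    rw [hG]
    split_ifs with h0
    · exact h m fun i hi => (Finset.mem_insert.mp hi).elim (fun e => e ▸ h0) (hm i)
    · rfl

lemma co_series (d : ℕ) :
    Co (MvPowerSeries.X : Fin d → MvPowerSeries (Fin d) ℂ) (MvPowerSeries.pderiv ℂ) := by
  refine ⟨fun i h => ?_, fun r => ⟨r.constantCoeff, mem_span_X Finset.univ _ fun m hm => ?_⟩, fun i j => ?_⟩
  · simpa using MvPowerSeries.isUnit_constantCoeff _ h
  · rw [show m = 0 from Finsupp.ext fun i => hm i (Finset.mem_univ i)]
    simp only [MvPowerSeries.algebraMap_apply, Algebra.algebraMap_self, RingHomCompTriple.comp_apply, MvPowerSeries.coeff_zero_eq_constantCoeff, map_sub, MvPowerSeries.constantCoeff_C, sub_self]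
  · rw [MvPowerSeries.pderiv_X, Pi.single_apply]
    exact if_congr eq_comm rfl rfl

lemma lcm_series {A : Type} [CommRing A] [IsDomain A] [IsLocalRing A] [UniqueFactorizationMonoid A]
    [IsAdicComplete (maximalIdeal A) A] {a b : PowerSeries A} (h : (a * b).map (residue A) ≠ 0) :
    ∃ l, ∀ c, a ∣ c ∧ b ∣ c ↔ l ∣ c := by
  have h' := h
  rw [map_mul] at h'
  obtain ⟨g, u, Hg⟩ := PowerSeries.exists_isWeierstrassFactorization (left_ne_zero_of_mul h')
  obtain ⟨k, v, Hk⟩ := PowerSeries.exists_isWeierstrassFactorization (right_ne_zero_of_mul h')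
  have key : ∀ {g r : Polynomial A}, g.IsDistinguishedAt (maximalIdeal A) → (g : PowerSeries A) ∣ r → g ∣ r := by
    intro g r H hr
    rw [← Ideal.mem_span_singleton, ← Ideal.Quotient.eq_zero_iff_mem]
    refine H.algEquivQuotient.injective ?_
    rw [map_zero]
    exact Ideal.Quotient.eq_zero_iff_mem.mpr (Ideal.mem_span_singleton.mpr (by simpa only [RingHom.coe_coe, Polynomial.coeToPowerSeries.algHom_apply, Algebra.algebraMap_self, PowerSeries.map_id, id_eq] using hr))
  obtain ⟨l, hl⟩ := (isGCDMonoid_iff_exists_lcm.mp (inferInstance : IsGCDMonoid (Polynomial A))).2 g k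
  have hd : ∀ {p q : Polynomial A}, p ∣ q → (p : PowerSeries A) ∣ q := fun h =>
    map_dvd Polynomial.coeToPowerSeries.ringHom h
  have ea : ∀ c, a ∣ c ↔ (g : PowerSeries A) ∣ c := fun c => by rw [Hg.eq_mul, Hg.isUnit.mul_right_dvd]
  have eb : ∀ c, b ∣ c ↔ (k : PowerSeries A) ∣ c := fun c => by rw [Hk.eq_mul, Hk.isUnit.mul_right_dvd]
  refine ⟨l, fun c => ⟨fun ⟨h1, h2⟩ => ?_, fun h1 => ?_⟩⟩
  · obtain ⟨q, r, -, e⟩ := c.exists_isWeierstrassDivision h
    rw [e] at h1 h2 ⊢
    have a1 := key Hg.isDistinguishedAt ((ea _).mp ((dvd_add_right ((dvd_mul_right a b).mul_right q)).mp h1))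
    have a2 := key Hk.isDistinguishedAt ((eb _).mp ((dvd_add_right ((dvd_mul_left b a).mul_right q)).mp h2))
    refine dvd_add (Dvd.dvd.mul_right ?_ q) (hd ((hl r).mp ⟨a1, a2⟩))
    refine (hd ((hl (g * k)).mp ⟨dvd_mul_right _ _, dvd_mul_left _ _⟩)).trans ?_
    rw [Polynomial.coe_mul]
    exact mul_dvd_mul ((ea a).mp dvd_rfl) ((eb b).mp dvd_rfl)
  · obtain ⟨a1, a2⟩ := (hl l).mpr dvd_rfl
    exact ⟨(ea c).mpr ((hd a1).trans h1), (eb c).mpr ((hd a2).trans h1)⟩

section Ufd

variable {S : Type} [CommRing S] [Algebra ℂ S] [IsLocalRing S] [IsNoetherianRing S] {d : ℕ}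
  {x : Fin d → S} {X : Fin d → Derivation ℂ S S}

lemma mem_of_all (I : Ideal S) {c : S} (h : ∀ N, c ∈ I ⊔ maximalIdeal S ^ N) : c ∈ I := by
  have h1 := Ideal.iInf_pow_smul_eq_bot_of_isLocalRing (M := S ⧸ I) _ (maximalIdeal.isMaximal S).ne_top
  rw [← Ideal.Quotient.eq_zero_iff_mem, ← Submodule.mem_bot S, ← h1, Submodule.mem_iInf]
  intro N
  obtain ⟨u, hu, v, hv, rfl⟩ := Submodule.mem_sup.mp (h N)
  rw [map_add, Ideal.Quotient.eq_zero_iff_mem.mpr hu, zero_add]
  simpa only [Ideal.smul_top_eq_map, Ideal.Quotient.algebraMap_eq, Submodule.restrictScalars_mem, Ideal.mem_quotient_iff_mem_sup, Algebra.smul_def, mul_one] using Submodule.smul_mem_smul hv (Submodule.mem_top (x := (1 : S ⧸ I)))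

lemma lcm_desc {T : S →+* MvPowerSeries (Fin d) ℂ}
    (hT : ∀ (f : S) (P : MP d) (N : ℕ), f - aeval x P ∈ maximalIdeal S ^ N ↔ (N : ℕ∞) ≤ (T f - P).order)
    {a b : S} {l : MvPowerSeries (Fin d) ℂ} (l0 : l ≠ 0) (hl : ∀ c, T a ∣ c ∧ T b ∣ c ↔ l ∣ c) :
    ∃ l', ∀ c, a ∣ c ∧ b ∣ c ↔ l' ∣ c := by
  have h0 : ∀ f (N : ℕ), f ∈ maximalIdeal S ^ N ↔ (N : ℕ∞) ≤ (T f).order := fun f N => by
    simpa using hT f 0 N
  have h1 : ∀ (g : MvPowerSeries (Fin d) ℂ) (N : ℕ), ∃ s, (N : ℕ∞) ≤ (g - T s).order := fun g N => by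
    refine ⟨aeval x (g.truncTotal N), MvPowerSeries.nat_le_order fun α hα => ?_⟩
    have := MvPowerSeries.coeff_of_lt_order (lt_of_lt_of_le (Nat.cast_lt.mpr hα)
      ((hT (aeval x (g.truncTotal N)) (g.truncTotal N) N).mp (by simp)))
    rw [map_sub, MvPolynomial.coeff_coe, MvPowerSeries.coeff_truncTotal _ hα, sub_eq_zero] at this
    rw [map_sub, this, sub_self]
  have hm : ∀ (u g : MvPowerSeries (Fin d) ℂ) (N : ℕ), (N : ℕ∞) ≤ g.order → (N : ℕ∞) ≤ (u * g).order :=
    fun u g N h => MvPowerSeries.order_mul u g ▸ h.trans le_add_self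
  have hs : ∀ (u g : MvPowerSeries (Fin d) ℂ) (N : ℕ), (N : ℕ∞) ≤ u.order → (N : ℕ∞) ≤ g.order →
      (N : ℕ∞) ≤ (u - g).order := fun u g N h h' => by
    rw [sub_eq_add_neg]
    exact (le_min h (by rwa [MvPowerSeries.order_neg])).trans MvPowerSeries.min_order_le_add
  obtain ⟨⟨α, hα⟩, β, hβ⟩ := (hl l).mpr dvd_rfl
  obtain ⟨k, hk⟩ := Ideal.exists_pow_inf_eq_pow_smul (maximalIdeal S) (Ideal.span {a, b})
  obtain ⟨o, ho⟩ := ENat.ne_top_iff_exists.mp (mt MvPowerSeries.order_eq_top_iff.mp l0)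
  obtain ⟨p, hp⟩ := h1 α (o + 1 + k)
  obtain ⟨q, hq⟩ := h1 β (o + 1 + k)
  have h2 : p * a - q * b ∈ maximalIdeal S ^ (o + 1) • Ideal.span {a, b} := by
    refine Submodule.smul_mono le_rfl inf_le_right (show _ ∈ _ • (maximalIdeal S ^ k • ⊤ ⊓ _) from ?_)
    rw [← Nat.add_sub_cancel (o + 1) k, ← hk _ (Nat.le_add_left _ _)]
    refine ⟨?_, Ideal.mem_span_pair.mpr ⟨p, -q, by ring⟩⟩
    rw [smul_eq_mul, Ideal.mul_top, SetLike.mem_coe, h0, show T (p * a - q * b) =
      T b * (β - T q) - T a * (α - T p) by rw [map_sub, map_mul, map_mul]; linear_combination hβ - hα]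
    exact hs _ _ _ (hm _ _ _ hq) (hm _ _ _ hp)
  rw [Ideal.span_insert, Submodule.smul_sup] at h2
  obtain ⟨_, h3, _, h4, h5⟩ := Submodule.mem_sup.mp h2
  obtain ⟨p', a1, rfl⟩ := Submodule.mem_smul_span_singleton.mp h3
  obtain ⟨q', a2, rfl⟩ := Submodule.mem_smul_span_singleton.mp h4
  have a3 : a * (p - p') = b * (q + q') := by simp only [smul_eq_mul] at h5; linear_combination -h5
  obtain ⟨e, he⟩ := (hl (T (a * (p - p')))).mp ⟨map_dvd T (dvd_mul_right _ _), map_dvd T ⟨_, a3⟩⟩
  have hu : IsUnit e := by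
    have a4 : ((o + 1 : ℕ) : ℕ∞) ≤ (l * (1 - e)).order := by
      rw [show l * (1 - e) = T a * ((α - T p) - -T p') by
        rw [map_mul, map_sub] at he; linear_combination hα + he]
      exact hm _ _ _ (hs _ _ _ (le_trans (Nat.cast_le.mpr (by omega)) hp)
        (by rw [MvPowerSeries.order_neg]; exact (h0 _ _).mp a1))
    rw [MvPowerSeries.order_mul, ← ho, Nat.cast_add, ENat.add_le_add_iff_left (ENat.natCast_ne_top o), Nat.cast_one,
      MvPowerSeries.one_le_order_iff_constCoeff_eq_zero, map_sub, map_one, sub_eq_zero] at a4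
    exact MvPowerSeries.isUnit_iff_constantCoeff.mpr (a4 ▸ isUnit_one)
  refine ⟨a * (p - p'), fun c => ⟨fun h => ?_, fun h => ⟨(dvd_mul_right _ _).trans h, (Dvd.intro _ a3.symm).trans h⟩⟩⟩
  obtain ⟨r, hr⟩ := (hu.mul_right_dvd (a := l)).mpr ((hl (T c)).mp ⟨map_dvd T h.1, map_dvd T h.2⟩)
  refine Ideal.mem_span_singleton.mp (mem_of_all _ fun N => ?_)
  obtain ⟨s, hs'⟩ := h1 r N
  rw [← add_sub_cancel (a * (p - p') * s) c]
  refine Submodule.add_mem_sup (Ideal.mul_mem_right _ _ (Ideal.mem_span_singleton_self _)) ((h0 _ _).mpr ?_)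
  rw [map_sub, map_mul, hr, he, ← mul_sub]
  exact hm _ _ _ hs'

lemma coeff_single_hom {k : ℕ} {Q : MP (d + 1)} (h : Q.IsHomogeneous k) :
    eval (Pi.single 0 1) Q = coeff (single 0 k) Q := by
  rw [eval_eq', Finset.sum_eq_single (single 0 k)]
  · rw [Fin.prod_univ_succ]; simp only [Pi.single_eq_same, single_eq_same, one_pow, ne_eq, Fin.succ_ne_zero, not_false_eq_true, Pi.single_eq_of_ne, single_eq_of_ne, pow_zero, Finset.prod_const_one, mul_one]
  · intro α hα hne
    obtain ⟨i, hi⟩ : ∃ i : Fin d, α i.succ ≠ 0 := by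
      by_contra hc
      push Not at hc
      have := h (MvPolynomial.mem_support_iff.mp hα)
      rw [wt_one, degree_eq_sum, Fin.sum_univ_succ, Finset.sum_eq_zero fun i _ => hc i, add_zero] at this
      exact hne (Finsupp.ext fun j => Fin.cases (by simp [this]) (fun j => by simp [hc]) j)
    exact mul_eq_zero_of_right _ (Finset.prod_eq_zero (Finset.mem_univ i.succ) (by simp [hi]))
  · exact fun h => by rw [MvPolynomial.notMem_support_iff.mp h, zero_mul]

lemma Co.domain (C : Co x X) : IsDomain S := by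
  obtain ⟨o, -, h⟩ := C.exists_ord (w := 1) fun _ => le_rfl
  have : NoZeroDivisors S := ⟨fun {a b} hab => by_contra fun hc => (h a b (not_or.mp hc).1 (not_or.mp hc).2).1 hab⟩
  exact NoZeroDivisors.to_isDomain S

end Ufd

theorem Co.ufd (d : ℕ) : ∀ {S : Type} [CommRing S] [Algebra ℂ S] [IsLocalRing S] [IsNoetherianRing S]
    {x : Fin d → S} {X : Fin d → Derivation ℂ S S}, Co x X → UniqueFactorizationMonoid S := by
  induction d with
  | zero =>
    intro S _ _ _ _ x X C
    have := C.domain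
    refine UniqueFactorizationMonoid.iff_exists_prime_mem_of_isPrime.mpr fun I h0 hI => absurd ?_ h0
    exact le_bot_iff.mp ((le_maximalIdeal hI.ne_top).trans (by simpa only [le_bot_iff, Matrix.range_empty, Submodule.span_empty] using C.max_le))
  | succ d ih =>
    intro S _ _ _ _ x X C
    have := C.domain
    have := ih (co_series d)
    have := (co_series d).domain
    have : IsAdicComplete (maximalIdeal (MvPowerSeries (Fin d) ℂ)) (MvPowerSeries (Fin d) ℂ) := by
      rw [le_antisymm (co_series d).max_le (Ideal.span_le.mpr (by rintro _ ⟨i, rfl⟩; exact (co_series d).xM i))]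
      infer_instance
    suffices IsGCDMonoid S from inferInstance
    refine isGCDMonoid_iff_exists_lcm.mpr ⟨inferInstance, fun a b => ?_⟩
    by_cases h0 : a * b = 0
    · exact ⟨0, fun c => ⟨fun h => (mul_eq_zero.mp h0).elim (fun e => e ▸ h.1) (fun e => e ▸ h.2),
        fun h => ⟨(dvd_zero a).trans h, (dvd_zero b).trans h⟩⟩⟩
    obtain ⟨o, ho, -⟩ := C.exists_ord (w := 1) fun _ => le_rfl
    obtain ⟨H, H1, H2⟩ := C.approx (fun _ => le_rfl) ((ho _ h0 _).mpr le_rfl)
    obtain ⟨c, hc⟩ : ∃ c, eval c (MvPolynomial.X 0 * H) ≠ 0 := by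
      by_contra hc
      push Not at hc
      have h1 : MvPolynomial.X 0 * H = 0 := MvPolynomial.funext fun c => by rw [hc, map_zero]
      rw [(mul_eq_zero.mp h1).resolve_left (X_ne_zero 0), map_zero, sub_zero] at H2
      have := (ho _ h0 _).mp H2
      omega
    rw [map_mul, eval_X] at hc
    have c0 := left_ne_zero_of_mul hc
    let y : Fin (d + 1) → S := fun j => (if j = 0 then 0 else x j) +
      algebraMap ℂ S ((if j = 0 then 1 else -c j) / c 0) * x 0
    have hX : ∀ i j, X i (y j) = (if j = 0 then 0 else if i = j then 1 else 0) +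
        algebraMap ℂ S ((if j = 0 then 1 else -c j) / c 0) * if i = 0 then 1 else 0 := fun i j => by
      simp only [y, map_add, Derivation.leibniz, Derivation.map_algebraMap, C.Xx, smul_eq_mul, mul_zero, add_zero]
      by_cases hj : j = 0 <;> simp only [hj, ↓ reduceIte, map_zero, one_div, mul_ite, mul_one, mul_zero, zero_add, C.Xx]
    obtain ⟨N, -, D⟩ := C.shear 0 (y := y) (fun j => add_mem (by split_ifs; exacts [zero_mem _, C.xM j])
      (Ideal.mul_mem_left _ _ (C.xM 0))) (fun j h => by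
        rw [hX] at h
        by_cases hj : j = 0
        · simp [hj, c0] at h
        · simp only [hj, ↓ reduceIte, mul_zero, add_zero, mem_maximalIdeal, one_notMem_nonunits] at h)
      (fun i j h1 h2 => by rw [hX]; simp [h1, h2])
    obtain ⟨T, hT⟩ := D.exists_taylor
    let Lx : Fin (d + 1) → MP (d + 1) := fun j => (if j = 0 then 0 else MvPolynomial.X j) +
      MvPolynomial.C (c j) * MvPolynomial.X 0
    have e1 : aeval y (aeval Lx H) = aeval x H := by
      rw [← AlgHom.comp_apply, comp_aeval]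
      congr 2
      funext j
      have : algebraMap ℂ S (c j) * (algebraMap ℂ S (1 / c 0) * x 0) = algebraMap ℂ S (c j / c 0) * x 0 := by
        rw [← mul_assoc, ← map_mul, mul_one_div]
      by_cases hj : j = 0
      · subst hj
        simpa only [y, Lx, ↓ reduceIte, zero_add, map_mul, algHom_C, aeval_X, one_div, ne_eq, c0, not_false_eq_true, div_self, map_one, one_mul] using this
      · simp only [Lx, y, hj, if_false, if_true, map_add, map_mul, aeval_X, algHom_C, zero_add, this, neg_div,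
          map_neg]
        ring
    have e2 : eval (Pi.single 0 1) (aeval Lx H) = eval c H := by
      rw [aeval_def, algebraMap_eq, ← eval_assoc]
      congr 2
      funext j
      by_cases hj : j = 0 <;> simp [Lx, hj]
    have e3 := coeff_single_hom (MvPolynomial.IsHomogeneous.aeval H1 Lx fun j => .add (by
      split_ifs; exacts [isHomogeneous_zero _ _ _, isHomogeneous_X _ _]) (isHomogeneous_C_mul_X _ _))
    have e4 := MvPowerSeries.coeff_of_lt_order (d := single 0 (o (a * b))) (lt_of_lt_of_le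
      (Nat.cast_lt.mpr (by rw [degree_single]; exact Nat.lt_succ_self _))
      ((hT (a * b) (aeval Lx H) _).mp (by rw [e1, ← C.WI_eq]; exact H2)))
    rw [map_sub, MvPolynomial.coeff_coe, ← one_mul (o (a * b)), ← e3, e2, sub_eq_zero, one_mul] at e4
    let E := MvPowerSeries.finSuccEquiv ℂ d
    obtain ⟨l, hl⟩ := lcm_series (a := E (T a)) (b := E (T b)) fun h => by
      have h1 := congrArg (PowerSeries.coeff (o (a * b))) h
      rw [← map_mul, ← map_mul, PowerSeries.coeff_map, LinearMap.map_zero, residue_eq_zero_iff] at h1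
      refine h1 (MvPowerSeries.isUnit_iff_constantCoeff.mpr (Ne.isUnit ?_))
      rw [← MvPowerSeries.coeff_zero_eq_constantCoeff_apply, MvPowerSeries.coeff_coeff_finSuccEquiv,
        cons_zero_eq_single_zero, e4]
      exact right_ne_zero_of_mul hc
    have h1 : ∀ c, T a ∣ c ∧ T b ∣ c ↔ E.symm l ∣ c := fun c => by
      rw [← map_dvd_iff E, ← map_dvd_iff E (a := T b), hl, ← map_dvd_iff E (a := E.symm l), E.apply_symm_apply]
    refine lcm_desc hT (fun h => ?_) h1
    have h2 := (h1 (T (a * b))).mp (map_mul T a b ▸ ⟨dvd_mul_right _ _, dvd_mul_left _ _⟩)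
    rw [h, zero_dvd_iff] at h2
    rw [h2, map_zero] at e4
    exact right_ne_zero_of_mul hc e4.symm

end Pool.Agent.MP_c54dba_ag.H70

end

section

/-! Coordinates adapted to a vector field. -/

set_option autoImplicit false

namespace Pool.Agent.MP_c54dba_ag.H70

open MvPolynomial IsLocalRing

lemma exists_tri (d : ℕ) : ∀ (M : Type) [AddCommGroup M] [Module ℂ M] [FiniteDimensional ℂ M],
    Module.finrank ℂ M = d → ∀ T : M →ₗ[ℂ] M, IsNilpotent T → ∃ b : Fin d → M, LinearIndependent ℂ b ∧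
      ∀ (i : Fin d) (N : Submodule ℂ M), (∀ j, i < j → b j ∈ N) → T (b i) ∈ N := by
  induction d with
  | zero => exact fun M _ _ _ _ T _ => ⟨Fin.elim0, linearIndependent_empty_type, fun i => i.elim0⟩
  | succ d ih =>
    intro M _ _ _ hd T hT
    obtain ⟨f, f0, hf⟩ := Submodule.exists_le_ker_of_lt_top (LinearMap.range T) (lt_top_iff_ne_top.mpr fun h => by
      obtain ⟨k, hk⟩ := hT
      have := Module.nontrivial_of_finrank_eq_succ hd
      have h1 := (LinearMap.range_eq_top.mp h).iterate k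
      rw [← Module.End.coe_pow, hk] at h1
      obtain ⟨a, ha⟩ := exists_ne (0 : M)
      obtain ⟨b, hb⟩ := h1 a
      exact ha hb.symm)
    have h1 : Module.finrank ℂ (LinearMap.ker f) = d := by
      have := Module.Dual.finrank_ker_add_one_of_ne_zero f0
      omega
    have h2 : Set.MapsTo T (LinearMap.ker f) (LinearMap.ker f) := fun z _ => hf (LinearMap.mem_range_self T z)
    obtain ⟨b, b1, b2⟩ := ih _ h1 (T.restrict h2) (Module.End.isNilpotent.restrict h2 hT)
    obtain ⟨a, ha⟩ := DFunLike.ne_iff.mp f0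
    refine ⟨Fin.cons a fun i => b i, (b1.map' _ (Submodule.ker_subtype _)).finCons fun h => ha ?_,
      fun i N => Fin.cases (fun h => ?_) (fun i h => ?_) i⟩
    · exact (Submodule.span_le (p := LinearMap.ker f)).mpr (by rintro _ ⟨i, rfl⟩; exact (b i).2) h
    · have h3 : Submodule.span ℂ (Set.range b) ≤ N.comap (LinearMap.ker f).subtype :=
        Submodule.span_le.mpr (by rintro _ ⟨i, rfl⟩; exact h i.succ (Fin.succ_pos i))
      rw [b1.span_eq_top_of_card_eq_finrank' (by simp only [Fintype.card_fin, h1])] at h3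
      exact h3 (x := ⟨T a, hf (LinearMap.mem_range_self T a)⟩) trivial
    · exact b2 i (N.comap (LinearMap.ker f).subtype) fun j hj => h j.succ (Fin.succ_lt_succ_iff.mpr hj)

variable {S : Type} [CommRing S] [Algebra ℂ S] [IsLocalRing S] {d : ℕ}
  {x : Fin d → S} {X : Fin d → Derivation ℂ S S}

lemma der_sq (D : Derivation ℂ S S) {I : Ideal S} (h : ∀ r ∈ maximalIdeal S,
    ∀ s ∈ maximalIdeal S, r * D s ∈ I) {f : S} (hf : f ∈ maximalIdeal S ^ 2) : D f ∈ I := by
  rw [pow_two] at hf
  refine Submodule.mul_induction_on hf (fun r hr s hs => ?_) fun r s hr hs => map_add D r s ▸ add_mem hr hs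
  rw [D.leibniz]
  exact add_mem (h r hr s hs) (h s hs r hr)

lemma Co.sq (C : Co x X) {f : S} (hf : f ∈ maximalIdeal S) (h : ∀ i, X i f ∈ maximalIdeal S) :
    f ∈ maximalIdeal S ^ 2 := by
  have h1 := C.eul (w := 1) (k := 1) (fun _ => le_rfl) (span_le_WI (fun _ => le_rfl) (C.max_le hf))
  rw [C.WI_eq, Nat.cast_one, one_mul] at h1
  rw [← sub_sub_cancel (∑ i, (((1 : Fin d → ℕ) i : ℕ) : S) * (x i * X i f)) f]
  exact sub_mem (sum_mem fun i _ => Ideal.mul_mem_left _ _ (pow_two (maximalIdeal S) ▸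
    Ideal.mul_mem_mul (C.xM i) (h i))) h1

lemma Co.nilp (C : Co x X) (V : Derivation ℂ S S) (hV : ∀ r, V r ∈ maximalIdeal S) {c : ℕ}
    (hc : ∀ r ∈ maximalIdeal S, V^[c] r ∈ maximalIdeal S ^ 2) :
    ∃ (y : Fin d → S) (N : Matrix (Fin d) (Fin d) S), (Matrix.of (fun i j => X i (y j)) * N = 1 ∧
      Co y fun k => ∑ i, N k i • X i) ∧ ∀ i : Fin d, V (y i) ∈ WI y (fun i => d + i) (d + i + 1) := by
  let l : (Fin d → ℂ) →ₗ[ℂ] S := Fintype.linearCombination ℂ x
  have hl : ∀ b i, X i (l b) = algebraMap ℂ S (b i) := fun b i => by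
    simp only [l, Fintype.linearCombination_apply, map_sum, Derivation.map_smul, C.Xx, smul_ite, smul_zero, Finset.sum_ite_eq, Finset.mem_univ, ↓ reduceIte, Algebra.algebraMap_eq_smul_one]
  have hm : ∀ b, l b ∈ maximalIdeal S := fun b => by
    rw [Fintype.linearCombination_apply]
    exact sum_mem fun i _ => by rw [Algebra.smul_def]; exact Ideal.mul_mem_left _ _ (C.xM i)
  have hX : ∀ i, ∀ f ∈ maximalIdeal S ^ 2, X i f ∈ maximalIdeal S := fun i f =>
    der_sq _ fun r hr s _ => Ideal.mul_mem_right _ _ hr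
  have hV2 : ∀ f ∈ maximalIdeal S ^ 2, V f ∈ maximalIdeal S ^ 2 := fun f =>
    der_sq _ fun r hr s _ => pow_two (maximalIdeal S) ▸ Ideal.mul_mem_mul hr (hV s)
  choose ρ hρ using C.res'
  let T : (Fin d → ℂ) →ₗ[ℂ] Fin d → ℂ := Fintype.linearCombination ℂ fun j i => ρ (X i (V (x j)))
  have h1 : ∀ b, V (l b) - l (T b) ∈ maximalIdeal S ^ 2 := fun b => by
    have : V (l b) - l (T b) = ∑ j, b j • (V (x j) - l fun i => ρ (X i (V (x j)))) := by
      simp only [T, Fintype.linearCombination_apply, map_sum, map_smul, smul_sub, Finset.sum_sub_distrib]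
      simp only [l, Fintype.linearCombination_apply, map_sum, Derivation.map_smul]
    rw [this]
    refine sum_mem fun j _ => ?_
    rw [Algebra.smul_def]
    exact Ideal.mul_mem_left _ _ (C.sq (sub_mem (hV _) (hm _)) fun i => by rw [map_sub, hl]; exact hρ _)
  have h2 : ∀ k b, V^[k] (l b) - l ((T ^ k) b) ∈ maximalIdeal S ^ 2 := fun k b => by
    induction k with
    | zero => simp
    | succ k ih =>
      rw [Function.iterate_succ_apply', pow_succ' T, Module.End.mul_apply,
        ← sub_add_sub_cancel _ (V (l ((T ^ k) b))), ← map_sub]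
      exact add_mem (hV2 _ ih) (h1 _)
  obtain ⟨b, b1, b2⟩ := exists_tri d (Fin d → ℂ) (by simp only [Module.finrank_fintype_fun_eq_card, Fintype.card_fin]) T ⟨c, LinearMap.ext fun b => funext fun i => by
    have := sub_mem (hc _ (hm b)) (h2 c b)
    rw [sub_sub_cancel] at this
    exact const_zero (hl _ i ▸ hX i _ this)⟩
  obtain ⟨N, h3, D⟩ := C.change (y := fun j => l (b j)) (fun j => hm _) fun c hc =>
    funext (Fintype.linearIndependent_iff.mp b1 c (funext fun i => const_zero (S := S) (by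
      simpa only [Finset.sum_apply, Pi.smul_apply, smul_eq_mul, mul_comm, map_sum, map_mul, mem_maximalIdeal, mem_nonunits_iff, hl] using hc i)))
  refine ⟨_, N, ⟨h3, D⟩, fun i => ?_⟩
  rw [← sub_add_cancel (V _) (l (T (b i)))]
  refine add_mem ?_ (b2 i (((WI _ _ _).restrictScalars ℂ).comap l) fun j hj =>
    WI_mono (by have := Fin.lt_def.mp hj; omega) (WI_x (x := fun j => l (b j)) (w := fun i => d + i) j))
  have h4 := D.max_le.trans (span_le_WI (w := fun i : Fin d => d + i) (k := d) fun i => Nat.le_add_right _ _)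
  refine WI_mono (show d + i + 1 ≤ d + d by have := i.2; omega) ?_
  have h5 := h1 (b i)
  rw [pow_two] at h5
  exact Ideal.mul_le.mpr (fun r hr s hs => WI_mul (h4 hr) (h4 hs)) h5

lemma exists_flow {θ : Derivation ℂ S S} {u : S} (h : θ u = 1) (f : S) (M : ℕ) :
    ∃ z, u ^ M ∣ θ (f + u * z) := by
  induction M with
  | zero => exact ⟨0, by simp⟩
  | succ M ih =>
    obtain ⟨z, g, hg⟩ := ih
    have e : algebraMap ℂ S (M + 1)⁻¹ * (M + 1) = 1 := by
      rw [← map_natCast (algebraMap ℂ S), ← map_one (algebraMap ℂ S), ← map_add, ← map_mul,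
        inv_mul_cancel₀ (Nat.cast_add_one_ne_zero M)]
    refine ⟨z - algebraMap ℂ S (M + 1)⁻¹ * (u ^ M * g), -(algebraMap ℂ S (M + 1)⁻¹ * θ g), ?_⟩
    rw [mul_sub, ← add_sub_assoc, map_sub, hg, mul_left_comm, ← mul_assoc u, ← pow_succ', θ.leibniz,
      θ.map_algebraMap, θ.leibniz, θ.leibniz_pow, h]
    simp only [smul_eq_mul, nsmul_eq_mul, Nat.add_sub_cancel]
    push_cast
    linear_combination (-(u ^ M * g)) * e

/-- weights along a non-singular vector field -/
def wr (i0 : Fin d) (M : ℕ) (j : Fin d) : ℕ := if j = i0 then 1 else M + 1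

lemma wr_self (i0 : Fin d) (M : ℕ) : wr i0 M i0 = 1 := if_pos rfl

lemma wr_ne {i0 j : Fin d} (h : j ≠ i0) (M : ℕ) : wr i0 M j = M + 1 := if_neg h

lemma wr_pos (i0 : Fin d) (M : ℕ) (j : Fin d) : 1 ≤ wr i0 M j := by unfold wr; split_ifs <;> omega

lemma Co.flow (C : Co x X) {θ : Derivation ℂ S S} {i0 : Fin d} (h : θ (x i0) = 1) (M : ℕ) :
    ∃ (y : Fin d → S) (N : Matrix (Fin d) (Fin d) S), (Matrix.of (fun i j => X i (y j)) * N = 1 ∧
      Co y fun k => ∑ i, N k i • X i) ∧ θ (y i0) = 1 ∧ ∀ j, θ (y j) ∈ WI y (wr i0 M) (wr i0 M j - 1) := by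
  choose z hz using fun j => exists_flow h (x j) M
  let y : Fin d → S := fun j => x j + x i0 * if j = i0 then 0 else z j
  have e0 : y i0 = x i0 := by simp [y]
  have hX : ∀ i j, i ≠ i0 ∨ j = i0 → X i (y j) - (if i = j then 1 else 0) ∈ maximalIdeal S := fun i j hij => by
    rcases hij with hij | rfl
    · simp only [y, map_add, Derivation.leibniz, C.Xx, if_neg hij, smul_zero, add_zero, add_sub_cancel_left]
      exact Ideal.mul_mem_right _ _ (C.xM i0)
    · simp [e0, C.Xx]
  obtain ⟨N, h1, D⟩ := C.shear i0 (y := y) (fun j => add_mem (C.xM j) (Ideal.mul_mem_right _ _ (C.xM i0)))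
    (fun j hj => by simpa using sub_mem hj (hX j j (ne_or_eq _ _))) fun i j a b => by
      simpa only [mem_maximalIdeal, mem_nonunits_iff, b, ↓ reduceIte, sub_zero] using hX i j (Or.inl a)
  refine ⟨y, N, ⟨h1, D⟩, e0 ▸ h, fun j => ?_⟩
  by_cases hj : j = i0
  · rw [hj, wr_self]; exact WI_zero _
  obtain ⟨g, hg⟩ := hz j
  rw [show y j = x j + x i0 * z j by simp [y, hj], hg, ← e0, wr_ne hj]
  refine Ideal.mul_mem_right _ _ ?_
  simpa only [add_tsub_cancel_right, aeval_monomial, map_one, pow_zero, Finsupp.prod_single_index, one_mul] using WI_gen (x := y) (w := wr i0 M) (k := M)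
    (α := Finsupp.single i0 M) (by simp [Finsupp.weight_single, wr_self]) 1

lemma Co.flow_ord (C : Co x X) {θ : Derivation ℂ S S} (hd : ∀ f, θ f = ∑ j, θ (x j) * X j f) {i0 : Fin d}
    (h : θ (x i0) = 1) {M : ℕ} (h' : ∀ j, θ (x j) ∈ WI x (wr i0 M) (wr i0 M j - 1))
    {k : ℕ} (hk : k ≤ M + 1) {f : S} (hf : ∀ j < k, θ^[j] f ∈ maximalIdeal S) : f ∈ WI x (wr i0 M) k := by
  induction k generalizing f with
  | zero => exact WI_zero _
  | succ k ih =>
    rcases k.eq_zero_or_pos with rfl | k0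
    · exact span_le_WI (wr_pos i0 M) (C.max_le (hf 0 one_pos))
    have h1 := C.eul (wr_pos i0 M) (ih (by omega) fun j hj => hf j (by omega))
    have h2 := ih (f := θ f) (by omega) fun j hj => hf (j + 1) (by omega)
    rw [← Ideal.unit_mul_mem_iff_mem _ ((Ne.isUnit (Nat.cast_ne_zero.mpr k0.ne')).map (algebraMap ℂ S)),
      map_natCast, ← sub_sub_cancel (∑ i, (wr i0 M i : S) * (x i * X i f)) (k * f)]
    refine sub_mem (sum_mem fun j _ => Ideal.mul_mem_left _ _ ?_) h1
    by_cases hj : j = i0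
    · rw [hd, ← Finset.add_sum_erase _ _ (Finset.mem_univ i0), h, one_mul] at h2
      have h3 : ∑ j ∈ Finset.univ.erase i0, θ (x j) * X j f ∈ WI x (wr i0 M) k := sum_mem fun j hj =>
        Ideal.mul_mem_right _ _ (WI_mono (by rw [wr_ne (Finset.ne_of_mem_erase hj)]; omega) (h' j))
      have h4 := WI_mul (WI_x i0) (sub_mem h2 h3)
      rw [add_sub_cancel_right, wr_self, add_comm] at h4
      exact hj ▸ h4
    · exact Ideal.mul_mem_right _ _ (WI_mono (by rw [wr_ne hj]; omega) (WI_x j))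

end Pool.Agent.MP_c54dba_ag.H70

end

section

/-! Charts in the function field; monomial valuations. -/

set_option autoImplicit false

namespace Pool.Agent.MP_c54dba_ag.H70

open MvPolynomial IsLocalRing

variable {L : Type} [Field L] [Algebra ℂ L] {w : Val L} {n d : ℕ}

section Lo

omit [Algebra ℂ L] in
lemma ge_prod {ι : Type} (s : Finset ι) {f : ι → L} {a : ι → ℤ} (h : ∀ i ∈ s, Ge w (a i) (f i)) :
    Ge w (∑ i ∈ s, a i) (∏ i ∈ s, f i) := by
  classical
  induction s using Finset.induction_on with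
  | empty => simpa using Ge.one
  | insert j s hj ih =>
    rw [Finset.sum_insert hj, Finset.prod_insert hj]
    exact (h j (Finset.mem_insert_self _ _)).mul (ih fun i hi => h i (Finset.mem_insert_of_mem hi))

omit [Algebra ℂ L] in
lemma ge_det {M : Matrix (Fin d) (Fin d) L} {a b : Fin d → ℤ} (h : ∀ i j, Ge w (a i + b j) (M i j)) :
    Ge w (∑ i, a i + ∑ j, b j) M.det := by
  rw [Matrix.det_apply']
  refine Ge.sum fun σ _ => Ge.mul0 ?_ ((ge_prod _ fun i _ => h (σ i) i).mono ?_)
  · rcases Int.units_eq_one_or (Equiv.Perm.sign σ) with e | e <;> rw [e]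
    · simpa using Ge.one
    · simpa using Ge.one.neg
  · rw [Finset.sum_add_distrib, Equiv.sum_comp σ a]

lemma reg_of_frac {R : Subalgebra ℂ L} (hR : ∀ z : L, ∃ a ∈ R, ∃ b ∈ R, b ≠ 0 ∧ z = a / b)
    {D : Derivation ℂ L L} {k : ℤ} (c : ℤ → L) (hc : ∀ i j, c (i - j) = c i - c j)
    (h : ∀ r ∈ R, Ge w (ord w r + k) (D r - c (ord w r) * r)) (f : L) :
    Ge w (ord w f + k) (D f - c (ord w f) * f) := by
  obtain ⟨a, ha, b, hb, b0, rfl⟩ := hR f
  by_cases a0 : a = 0
  · rw [a0, zero_div, map_zero, mul_zero, sub_zero]; exact Ge.zero _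
  rw [ord_div a0 b0, hc, show D (a / b) - (c (ord w a) - c (ord w b)) * (a / b) =
    b⁻¹ * (D a - c (ord w a) * a) - a / b * b⁻¹ * (D b - c (ord w b) * b) by
      rw [D.leibniz_div]; simp only [smul_eq_mul]; field_simp; ring]
  refine (((Ge.self _).mul (h a ha)).mono ?_).sub ((((Ge.self _).mul (Ge.self _)).mul (h b hb)).mono ?_)
  · rw [ord_inv]; omega
  · rw [ord_inv, ord_div a0 b0]; omega

lemma le_can {r : ℕ} {δ : Fin r → Derivation ℂ L L} {k : ℤ}
    (h1 : ∀ f : Fin r → L, (∀ j, Ge w 0 (f j)) → Ge w k (Matrix.det (Matrix.of fun i j => δ i (f j))))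
    (f : Fin r → L) (h2 : ∀ j, Ge w 0 (f j)) (h3 : Matrix.det (Matrix.of fun i j => δ i (f j)) ≠ 0) :
    k ≤ -can δ w ∧ -can δ w ≤ ord w (Matrix.det (Matrix.of fun i j => δ i (f j))) := by
  unfold can
  rw [neg_neg]
  have h4 : ∀ m ∈ {m : ℤ | ∃ f : Fin r → L, (∀ j, 0 ≤ w (f j)) ∧
      w (Matrix.det (Matrix.of fun i j => δ i (f j))) = m}, k ≤ m := by
    rintro m ⟨g, a1, a2⟩
    obtain ⟨b1, rfl⟩ := val_eq_iff.mp a2
    exact h1 g (fun j => ge0_iff.mpr (a1 j)) b1
  have h5 : ord w (Matrix.det (Matrix.of fun i j => δ i (f j))) ∈ {m : ℤ | ∃ f : Fin r → L, (∀ j, 0 ≤ w (f j)) ∧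
      w (Matrix.det (Matrix.of fun i j => δ i (f j))) = m} := ⟨f, fun j => ge0_iff.mp (h2 j), val_eq h3⟩
  exact ⟨le_csInf ⟨_, h5⟩ h4, csInf_le ⟨k, h4⟩ h5⟩

lemma RI.ge' {s : Fin n → L} (h : RI w s) (i : Fin n) : Ge w 0 (s i) := by simpa using h.ge (.X i)

lemma DivN.frame {A : Subalgebra ℂ L} {S : Set L} (h : DivN n A S w) :
    ∃ (e : L) (s : Fin n → L), Fr w e s ∧ ord w e = 1 := by
  obtain ⟨⟨π, a1, a2⟩, -, s, -, a3⟩ := divN_iff.mp h
  exact ⟨π, s, ⟨a1, by omega, a3⟩, a2⟩

variable [Algebra.EssFiniteType ℂ L] {e : L} {s : Fin n → L} (F : Fr w e s)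
  (ht : Algebra.trdeg ℂ L = (n + 1 : ℕ)) (h1 : ord w e = 1) {D : Derivation ℂ L L}
include F ht h1

lemma Fr.ext (he : D e = 0) (hs : ∀ i, D (s i) = 0) : D = 0 := by
  ext g
  refine Ge.of_all (w := w) fun k => ?_
  have := F.reg ht h1 (D := D) (k := k - ord w g) (he ▸ Ge.zero _) (fun i => hs i ▸ Ge.zero _) g
  rwa [add_sub_cancel] at this

lemma Fr.po {k : ℤ} (he : Ge w k (D e)) (hs : ∀ i, Ge w k (D (s i))) {f : L} (hf : Ge w 0 f) :
    Ge w k (D f) :=
  F.preg ht (F.reg ht h1 (he.mono (by omega)) fun i => (hs i).mono (by omega)) hs hf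

lemma Fr.can_one {δ : Fin 1 → Derivation ℂ L L} (h : LinearIndependent L δ) :
    ∃ k : ℤ, IsLo w (δ 0) k ∧ (can δ w : ℝ) + eps δ w = -k := by
  have he0 := F.ge1.mono zero_le_one
  obtain ⟨N, hN⟩ := F.bdd ht (δ 0)
  obtain ⟨k, ⟨g, b1, b2, b3⟩, hk⟩ := Int.exists_least_of_bdd
    (P := fun k => ∃ g, Ge w 0 g ∧ δ 0 g ≠ 0 ∧ ord w (δ 0 g) = k)
    ⟨N, by rintro _ ⟨g, a1, a2, rfl⟩; exact hN g a1 a2⟩ (by
      by_contra hc
      push Not at hc
      exact h.ne_zero 0 (F.ext ht h1 (by_contra fun h0 => hc _ e he0 h0 rfl)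
        fun i => by_contra fun h0 => hc _ _ (F.ri.ge' i) h0 rfl))
  have hpo : ∀ f, Ge w 0 f → Ge w k (δ 0 f) := fun f hf h0 => hk _ ⟨f, hf, h0, rfl⟩
  have hcan : can δ w = -k := can_eq (fun f hf => by rw [Matrix.det_fin_one]; exact hpo _ (hf 0)) ![g]
    (fun j => by fin_cases j; exact b1) (by rw [Matrix.det_fin_one]; exact b2)
    (by rw [Matrix.det_fin_one]; exact b3)
  rw [hcan]
  by_cases hc : Ge w (1 + k) (δ 0 e)
  · have hreg : Reg w k (δ 0) := reg_of_units F.ne h1 F.ri.triv hc fun u hu => hpo u hu.ge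
    refine ⟨k, ⟨hreg, g, b2, ?_⟩, ?_⟩
    · have := hreg g b2
      have := b1 fun h0 => b2 (by rw [h0, map_zero])
      omega
    rw [eps, if_pos, add_zero, Int.cast_neg]
    intro θ hθ h0 f hf
    rw [Set.range_unique, Submodule.mem_span_singleton] at hθ
    obtain ⟨c, rfl⟩ := hθ
    have hc : Ge w (-k) c := Ge.of_mul b2 (by
      rw [mul_comm, b3, add_neg_cancel]; exact ge0_iff.mpr (h0 g (ge0_iff.mp b1)))
    exact ge1_iff.mp ((hc.mul (hreg.ge (ge1_iff.mpr hf))).mono (by omega))
  · obtain ⟨c1, c2⟩ := not_ge.mp hc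
    have c3 := hpo e he0 c1
    refine ⟨k - 1, ⟨reg_of_units F.ne h1 F.ri.triv ((hpo e he0).mono (by omega))
      fun u hu => (hpo u hu.ge).mono (by omega), e, c1, by omega⟩, ?_⟩
    rw [eps, if_neg]
    · push_cast; ring
    intro hinv
    have := hinv ((δ 0 e)⁻¹ • δ 0) (Submodule.smul_mem _ _ (Submodule.subset_span ⟨0, rfl⟩))
      (fun f hf => ge0_iff.mp (((Ge.self _).mul (hpo f (ge0_iff.mpr hf))).mono (by
        rw [ord_inv]; omega))) e (ge1_iff.mp F.ge1)
    rw [Derivation.smul_apply, smul_eq_mul, inv_mul_cancel₀ c1, w.map_one] at this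
    exact lt_irrefl _ this

end Lo

variable {R : Subalgebra ℂ L} [IsLocalRing R]

/-- local coordinates with the dual vector fields, extended to the function field -/
structure Ch (R : Subalgebra ℂ L) [IsLocalRing R] (x : Fin d → R) (X : Fin d → Derivation ℂ R R)
    (Z : Fin d → Derivation ℂ L L) : Prop where
  co : Co x X
  ext : ∀ i (r : R), Z i r = X i r
  zero : ∀ D : Derivation ℂ L L, (∀ i, D (x i) = 0) → D = 0

variable {x : Fin d → R} {X : Fin d → Derivation ℂ R R} {Z : Fin d → Derivation ℂ L L}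

lemma Ch.Zx (C : Ch R x X Z) (i j : Fin d) : Z i (x j) = if i = j then 1 else 0 := by
  rw [C.ext, C.co.Xx]; split_ifs <;> rfl

lemma Ch.mem (C : Ch R x X Z) (i : Fin d) {r : L} (hr : r ∈ R) : Z i r ∈ R :=
  (C.ext i ⟨r, hr⟩) ▸ Subtype.mem _

lemma Ch.decomp (C : Ch R x X Z) (D : Derivation ℂ L L) (f : L) : D f = ∑ i, D (x i) * Z i f := by
  have := C.zero (D - ∑ i, D (x i) • Z i) fun j => by
    rw [Derivation.sub_apply, der_sum]; simp only [Derivation.coe_smul, Pi.smul_apply, C.Zx, smul_eq_mul, mul_ite, mul_one, mul_zero, Finset.sum_ite_eq', Finset.mem_univ, ↓ reduceIte, sub_self]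
  have := DFunLike.congr_fun this f
  rw [Derivation.sub_apply, der_sum, Derivation.zero_apply, sub_eq_zero] at this
  exact this

lemma Ch.x0 (C : Ch R x X Z) (i : Fin d) : (x i : L) ≠ 0 := fun h => by simpa [h] using C.Zx i i

lemma Ch.det_eq (C : Ch R x X Z) (τ : Fin d → Derivation ℂ L L) (f : Fin d → L) :
    (Matrix.of fun i j => τ i (f j)).det =
      (Matrix.of fun i j => τ i (x j)).det * (Matrix.of fun i j => Z i (f j)).det := by
  rw [← Matrix.det_mul]
  congr 1
  ext i j
  rw [Matrix.mul_apply]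
  exact C.decomp _ _

lemma Ch.det_ne (C : Ch R x X Z) {τ : Fin d → Derivation ℂ L L} (h : LinearIndependent L τ) :
    (Matrix.of fun i j => τ i (x j)).det ≠ 0 := fun h0 => by
  obtain ⟨c, c0, hc⟩ := Matrix.exists_vecMul_eq_zero_iff.mpr h0
  refine c0 (funext (Fintype.linearIndependent_iff.mp h c (C.zero _ fun j => ?_)))
  rw [der_sum]
  exact congrFun hc j

lemma Ch.of_co (C : Ch R x X Z) {y : Fin d → R} (h : ∃ N : Matrix (Fin d) (Fin d) R,
    Matrix.of (fun i j => X i (y j)) * N = 1 ∧ Co y fun k => ∑ i, N k i • X i) : ∃ Y Z', Ch R y Y Z' := by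
  obtain ⟨N, h1, h2⟩ := h
  refine ⟨_, fun k => ∑ i, (N k i : L) • Z i, h2, fun k r => ?_, fun D hD => C.zero D fun i => ?_⟩
  · rw [der_sum, der_sum]
    simp only [Derivation.coe_smul, Pi.smul_apply, C.ext, smul_eq_mul, AddSubmonoidClass.coe_finsetSum, MulMemClass.coe_mul]
  · have e1 : Matrix.vecMul (fun i => D (x i)) (R.val.mapMatrix (Matrix.of fun i j => X i (y j))) = 0 :=
      funext fun j => by
        rw [Pi.zero_apply, ← hD j, C.decomp D (y j)]
        simp only [Matrix.vecMul, dotProduct, AlgHom.mapMatrix_apply, Subalgebra.coe_val, Matrix.map_apply, Matrix.of_apply, C.ext]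
    have e2 := congrArg (fun z => Matrix.vecMul z (R.val.mapMatrix N)) e1
    simp only [Matrix.vecMul_vecMul, ← map_mul, h1, map_one, Matrix.vecMul_one, Matrix.zero_vecMul] at e2
    exact congrFun e2 i

omit R in
lemma card_le {κ κ' : Type} [Fintype κ] [Fintype κ'] {δ : κ → Derivation ℂ L L} (h : LinearIndependent L δ)
    {f : κ' → L} (hf : ∀ D : Derivation ℂ L L, (∀ j, D (f j) = 0) → D = 0) :
    Fintype.card κ ≤ Fintype.card κ' := by
  let ψ : Derivation ℂ L L →ₗ[L] κ' → L :=
    { toFun := fun D i => D (f i), map_add' := fun _ _ => rfl, map_smul' := fun _ _ => rfl }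
  simpa only [ge_iff_le, Module.finrank_fintype_fun_eq_card] using (h.map' ψ (LinearMap.ker_eq_bot'.mpr fun D hD => hf D (congrFun hD))).fintype_card_le_finrank

lemma exists_ch [IsNoetherianRing R] [Algebra.FormallySmooth ℂ R] [Algebra.EssFiniteType ℂ R]
    [IsFractionRing R L] (hres : ∀ r ∈ R, ∃ c, r - algebraMap ℂ L c ∈ Mx R) {ι : Type} (φ : ι → R)
    (hφ : Submodule.span R (Set.range fun i => KaehlerDifferential.D ℂ R (φ i)) = ⊤)
    {τ : Fin d → Derivation ℂ L L} (hτ : LinearIndependent L τ)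
    {f : Fin d → L} (hf : ∀ D : Derivation ℂ L L, (∀ j, D (f j) = 0) → D = 0) :
    ∃ (x : Fin d → R) (X : _) (Z : _), Ch R x X Z ∧ ∀ j, ∃ i c, x j = φ i - algebraMap ℂ R c := by
  classical
  have := Module.finitePresentation_of_finite R Ω[R⁄ℂ]
  obtain ⟨κ, a', b, hb⟩ := Module.exists_basis_of_span_of_flat _ hφ
  let a : κ → R := fun i => φ (a' i)
  replace hb : ∀ i, b i = KaehlerDifferential.D ℂ R (a i) := hb
  have := Module.Finite.finite_basis b
  have := Fintype.ofFinite κ
  have := Algebra.FormallyEtale.of_isLocalization (Rₘ := L) (nonZeroDivisors R)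
  let X : κ → Derivation ℂ R R := fun i => (b.coord i).compDer (KaehlerDifferential.D ℂ R)
  choose δ hd using fun i => ext_der (T := L) (X i)
  have hdec : ∀ (N : Type) [AddCommGroup N] [Module ℂ N] [Module R N] [IsScalarTower ℂ R N]
      (D : Derivation ℂ R N) (r : R), D r = ∑ i, X i r • D (a i) := by
    intro N _ _ _ _ D r
    conv_lhs => rw [← D.liftKaehlerDifferential_comp_D, ← b.sum_repr (KaehlerDifferential.D ℂ R r), map_sum]
    simp [hb, X]
  have hXa : ∀ i j, X i (a j) = if i = j then 1 else 0 := fun i j => by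
    change b.repr (KaehlerDifferential.D ℂ R (a j)) i = _
    rw [← hb, b.repr_self, Finsupp.single_apply]
    exact if_congr eq_comm rfl rfl
  have hda : ∀ i j, δ i (a j) = if i = j then 1 else 0 := fun i j => by
    refine (hd i (a j)).trans ?_
    rw [hXa]
    split_ifs <;> simp only [Subalgebra.algebraMap_apply, OneMemClass.coe_one, ZeroMemClass.coe_zero]
  have hext : ∀ D : Derivation ℂ L L, (∀ i, D (a i) = 0) → D = 0 := by
    intro D hD
    have h1 : ∀ r : R, D (algebraMap R L r) = 0 := fun r => by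
      refine (hdec L (D.compAlgebraMap R) r).trans (Finset.sum_eq_zero fun i _ => ?_)
      rw [Derivation.compAlgebraMap_apply, show D (algebraMap R L (a i)) = 0 from hD i, smul_zero]
    ext z
    obtain ⟨p, q, -, rfl⟩ := IsFractionRing.div_surjective R z
    rw [D.leibniz_div, h1, h1]
    simp only [Subalgebra.algebraMap_apply, inv_pow, smul_eq_mul, mul_zero, sub_self, Derivation.coe_zero, Pi.zero_apply]
  have hcard : Fintype.card κ = d := by
    refine le_antisymm ((card_le (δ := δ) (Fintype.linearIndependent_iff.mpr fun c hc j => ?_) hf).trans_eq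
      (Fintype.card_fin d)) (by simpa only [Fintype.card_fin] using card_le hτ hext)
    have := DFunLike.congr_fun hc (a j : L)
    rw [der_sum] at this
    simpa only [Derivation.coe_smul, Pi.smul_apply, hda, smul_eq_mul, mul_ite, mul_one, mul_zero, Finset.sum_ite_eq', Finset.mem_univ, ↓ reduceIte, Derivation.coe_zero, Pi.zero_apply] using this
  let e := (Fintype.equivFinOfCardEq hcard).symm
  obtain ⟨ρ, d0, h1, h2, h3⟩ := exists_res_der R hres
  have hmax : maximalIdeal R ≤ Ideal.span (Set.range fun j => a (e j) - algebraMap ℂ R (ρ (a (e j)))) := by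
    refine Submodule.le_of_le_smul_of_le_jacobson_bot (IsNoetherian.noetherian _)
      (maximalIdeal_le_jacobson ⊥) fun r hr => ?_
    have h4 := hdec _ d0 r
    rw [← e.sum_comp, h3, h2 r hr, map_zero, sub_zero] at h4
    simp only [h3] at h4
    change _ = ∑ i, Ideal.Quotient.mk _ (_ * _) at h4
    rw [← map_sum, Ideal.Quotient.eq, pow_two] at h4
    rw [← add_sub_cancel (Finset.sum _ _) r]
    exact Submodule.add_mem_sup (sum_mem fun j _ => Ideal.mul_mem_left _ _
      (Ideal.subset_span (Set.mem_range_self j))) h4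
  refine ⟨fun j => a (e j) - algebraMap ℂ R (ρ (a (e j))), fun j => X (e j), fun j => δ (e j),
    ⟨⟨fun j => h1 _, fun r => ⟨_, hmax (h1 r)⟩, fun i j => ?_⟩, fun i r => hd _ r, fun D hD => hext D fun i => ?_⟩,
    fun j => ⟨_, _, rfl⟩⟩
  · rw [map_sub, Derivation.map_algebraMap, sub_zero, hXa]
    exact if_congr e.injective.eq_iff rfl rfl
  · obtain ⟨j, rfl⟩ := e.surjective i
    have := hD j
    rwa [Subalgebra.coe_sub, map_sub, Subalgebra.coe_algebraMap, D.map_algebraMap, sub_zero] at this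

/-- `R` is a localisation of `A` -/
structure Gm (A R : Subalgebra ℂ L) : Prop where
  le : ∀ a ∈ A, a ∈ R
  loc : ∀ r ∈ R, ∃ a ∈ A, ∃ b ∈ A, b ≠ 0 ∧ b⁻¹ ∈ R ∧ r = a / b
  frac : ∀ z : L, ∃ a ∈ R, ∃ b ∈ R, b ≠ 0 ∧ z = a / b

omit R x X Z in
theorem exists_germ {A : Subalgebra ℂ L} [Algebra.Smooth ℂ A] [IsFractionRing A L]
    {τ : Fin d → Derivation ℂ L L} (hτ : LinearIndependent L τ)
    {f : Fin d → L} (hf : ∀ D : Derivation ℂ L L, (∀ j, D (f j) = 0) → D = 0) (m : Ideal A) [hm : m.IsMaximal] :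
    ∃ (R : Subalgebra ℂ L) (_ : IsLocalRing R) (_ : IsNoetherianRing R) (x : Fin d → R) (X : _) (Z : _),
      Gm A R ∧ Ch R x X Z ∧ (∀ i, (x i : L) ∈ A) ∧ ∀ a : A, (a : L) ∈ Mx R ↔ a ∈ m := by
  have : IsNoetherianRing A := Algebra.FiniteType.isNoetherianRing ℂ A
  let R' := Localization.subalgebra.ofField L m.primeCompl m.primeCompl_le_nonZeroDivisors
  let R := R'.restrictScalars ℂ
  let _ : Algebra A R := R'.algebra
  have : IsLocalization.AtPrime R m :=
    Localization.subalgebra.isLocalization_ofField L m.primeCompl m.primeCompl_le_nonZeroDivisors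
  have : IsScalarTower ℂ A R := .of_algebraMap_eq fun c =>
    Subtype.ext (IsScalarTower.algebraMap_apply ℂ A L c)
  have := IsLocalization.AtPrime.isLocalRing R m
  have : Algebra.EssFiniteType A R := .of_isLocalization R m.primeCompl
  have : Algebra.EssFiniteType ℂ R := .comp ℂ A R
  have : IsNoetherianRing R := IsLocalization.isNoetherianRing m.primeCompl R inferInstance
  have : Algebra.FormallySmooth A R := .of_isLocalization m.primeCompl
  have : Algebra.FormallySmooth ℂ R := .comp ℂ A R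
  have : IsFractionRing R L :=
    Localization.subalgebra.isFractionRing_ofField L m.primeCompl m.primeCompl_le_nonZeroDivisors
  have hR : ∀ z, z ∈ R ↔ ∃ a b : A, b ∉ m ∧ z = (a : L) * (b : L)⁻¹ :=
    fun z => exists_congr fun a => exists_congr fun b => exists_prop
  have hM : ∀ a : A, (a : L) ∈ Mx R ↔ a ∈ m := fun a => (coe_mem_Mx (r := algebraMap A R a)).trans
    (IsLocalization.AtPrime.to_map_mem_maximal_iff R m a)
  have hb0 : ∀ b : A, b ∉ m → (b : L) ≠ 0 := fun b hb h => hb ((hM b).mp (h ▸ zero_mem _))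
  have hbi : ∀ b : A, b ∉ m → (b : L)⁻¹ ∈ R := fun b hb =>
    (hR _).mpr ⟨1, b, hb, by simp⟩
  have hle : ∀ a ∈ A, a ∈ R := fun a ha => (algebraMap A R ⟨a, ha⟩).2
  obtain ⟨x, X, Z, C, hx⟩ := exists_ch (R := R) (fun r hr => by
    let _ := Ideal.Quotient.field m
    have := finite_of_finite_type_of_isJacobsonRing ℂ (A ⧸ m)
    have key : ∀ a : A, ∃ c, (a : L) - algebraMap ℂ L c ∈ Mx R := fun a => by
      obtain ⟨c, hc⟩ := (IsAlgClosed.algebraMap_bijective_of_isIntegral (k := ℂ) (K := A ⧸ m)).2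
        (Ideal.Quotient.mk m a)
      exact ⟨c, (hM _).mpr (Ideal.Quotient.eq.mp hc.symm)⟩
    obtain ⟨a, b, hb, rfl⟩ := (hR r).mp hr
    obtain ⟨α, hα⟩ := key a
    obtain ⟨β, hβ⟩ := key b
    have β0 : β ≠ 0 := fun h => hb ((hM b).mp (by simpa [h] using hβ))
    have h1 := Mx_mul (hbi b hb) (sub_mem hα (Mx_mul (R.algebraMap_mem (α / β)) hβ))
    refine ⟨α / β, ?_⟩
    have := hb0 b hb
    have := (_root_.map_ne_zero (algebraMap ℂ L)).mpr β0
    convert h1 using 1
    rw [map_div₀]
    field_simp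
    ring) (algebraMap A R) (by
      have := KaehlerDifferential.span_range_map_derivation_of_isLocalization ℂ A R m.primeCompl
      simpa only [Function.comp_def, KaehlerDifferential.map_D] using this) hτ hf
  refine ⟨R, inferInstance, inferInstance, x, X, Z, ⟨hle, fun r hr => ?_, fun z => ?_⟩, C, fun i => ?_, hM⟩
  · obtain ⟨a, b, hb, rfl⟩ := (hR r).mp hr
    exact ⟨a, a.2, b, b.2, hb0 b hb, hbi b hb, (div_eq_mul_inv _ _).symm⟩
  · obtain ⟨a, b, hb, rfl⟩ := IsFractionRing.div_surjective A z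
    exact ⟨_, hle a a.2, _, hle b b.2, fun h => nonZeroDivisors.ne_zero hb (Subtype.ext h), rfl⟩
  · obtain ⟨a, c, h⟩ := hx i
    rw [h]
    exact sub_mem a.2 (A.algebraMap_mem c)

end Pool.Agent.MP_c54dba_ag.H70

end
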