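import Pool.Agent.MP_c54dba_ag.H70.Lib

attribute [-instance] Subalgebra.instSMulSubtypeMem Algebra.Generators.instRing
  IsBezout.instIsGCDMonoidOfIsCancelMulZero ContinuousSemilinearMapClass.toSemilinearMapClass
  NonUnitalNormedRing.toNormedAddCommGroup NormedSpace.toModule instCoeTCOfCoe
  SemilinearMapClass.distribMulActionSemiHomClass LieAdmissibleAlgebra.toModule
  IdemSemiring.toSemiring MonTypeEquivalenceMon.monMonoid CoalgHomClass.toSemilinearMapClass
  RightPreLieAlgebra.toModule LeftPreLieAlgebra.toModule LieAlgebra.toModule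
  instTopologicalSpaceSubtype RingHomClass.toLinearMapClassNNRat ufm_of_decomposition_of_wfDvdMonoid
  littleWedderburn TestFunctionClass.toDFunLike instCharZeroOfIsSemireal
  instNonUnitalAlgHomClassOfNonUnitalAlgEquivClass ContDiffMapSupportedInClass.toDFunLike
  AddQuantale.instAddLeftMono instCoeTOfCoeDep IsometryClass.instCoeOutIsometryEquiv
  Algebra.instEtaleOfIsStandardSmoothOfRelativeDimensionOfNatNat instIsFractionRing
  CompletePartialOrder.toPartialOrder SemilinearIsometryClass.toSemilinearMapClass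
  LieAdmissibleAlgebra.toSMulCommClass MonoidHomClass.toMulHomClass
  LieAdmissibleAlgebra.toIsScalarTower
  ContinuousAddMonoidHom.instCoeOutOfAddMonoidHomClassOfContinuousMapClass
  CommMonTypeEquivalenceCommMon.commMonCommMonoid GroupConeClass.toSubmonoidClass
  SemilatticeInf.toPartialOrder RingHomClass.toLinearMapClassRat
  Algebra.Generators.instIsScalarTowerRing NumberField.to_charZero
  HomeomorphClass.instCoeOutHomeomorph AddGroupConeClass.toAddSubmonoidClass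
  Group.IsPerfect.subsingleton_of_isMulCommutative BialgEquivClass.toBialgHomClass
  AlgHomClass.linearMapClass instCoeTCOfCoe_1 LeftPreLieAlgebra.toIsScalarTower
  RightPreLieAlgebra.toSMulCommClass RightPreLieAlgebra.toIsScalarTower
  LeftPreLieAlgebra.toSMulCommClass Algebra.instEtaleOfIsStandardEtale NeZero.of_gt' instCoeHTCT
  RCLike.charZero_rclike

section

/-! Monomial valuations of a chart; prime divisors through the point; pull-backs. -/

set_option autoImplicit false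

namespace Pool.Agent.MP_c54dba_ag.H70

open MvPolynomial IsLocalRing Finsupp

variable {L : Type} [Field L] [Algebra ℂ L] {n : ℕ}

lemma zero_of_pderiv {I : MP n → Prop} (h1 : ∀ p i, I p → I (pderiv i p)) (h2 : ∀ c, I (C c) → c = 0)
    {p : MP n} (hp : I p) : p = 0 := by
  obtain ⟨N, hN⟩ : ∃ N, ∀ α, coeff α p ≠ 0 → α.degree < N :=
    ⟨p.totalDegree + 1, fun α h => Nat.lt_succ_of_le (le_totalDegree (MvPolynomial.mem_support_iff.mpr h))⟩
  induction N generalizing p with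
  | zero => ext α; exact by_contra fun h => absurd (hN α h) (Nat.not_lt_zero _)
  | succ N ih =>
    have h3 : ∀ i, pderiv i p = 0 := fun i => ih (h1 p i hp) fun α h => by
      rw [coeff_pderiv] at h
      have := hN _ (left_ne_zero_of_mul h)
      rw [map_add, degree_single] at this
      omega
    have h4 : p = C (coeff 0 p) := by
      ext α
      rw [coeff_C]
      split_ifs with h0
      · rw [h0]
      obtain ⟨i, hi⟩ : ∃ i, α i ≠ 0 := by
        by_contra hc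
        push Not at hc
        exact h0 (Finsupp.ext hc).symm
      have := congrArg (coeff (α - single i 1)) (h3 i)
      rw [coeff_pderiv, sub_add_single_one_cancel hi, coeff_zero] at this
      exact (mul_eq_zero.mp this).resolve_right (Nat.cast_add_one_ne_zero _)
    rw [h4] at hp ⊢
    rw [h2 _ hp, map_zero]

lemma der_aeval {T : Type} [CommRing T] [Algebra ℂ T] (D : Derivation ℂ T T) (s : Fin n → T) (p : MP n) :
    D (aeval s p) = ∑ j, aeval s (pderiv j p) * D (s j) := by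
  induction p using MvPolynomial.induction_on with
  | C a => simp only [algHom_C, Derivation.map_algebraMap, derivation_C, map_zero, zero_mul, Finset.sum_const_zero]
  | add p q hp hq => simp only [map_add, hp, hq, add_mul, Finset.sum_add_distrib]
  | mul_X p i hp =>
    simp only [map_mul, Derivation.leibniz, hp, aeval_X, smul_eq_mul, map_add, pderiv_X, Pi.single_apply,
      add_mul, Finset.sum_add_distrib, Finset.mul_sum, mul_assoc, apply_ite (aeval s), map_one, map_zero,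
      ite_mul, one_mul, zero_mul, mul_ite, mul_zero, Finset.sum_ite_eq, Finset.mem_univ, if_true]

lemma triv_mv {w : Val L} (h : Triv w) {s : Fin n → L} (hs : ∀ i, Ge w 0 (s i)) (p : MP n) :
    Ge w 0 (aeval s p) := by
  induction p using MvPolynomial.induction_on with
  | C a => rw [algHom_C]; exact h.ge a
  | add p q hp hq => rw [map_add]; exact hp.add hq
  | mul_X p i hp => rw [map_mul, aeval_X]; exact hp.mul0 (hs i)

variable {A R : Subalgebra ℂ L} [IsLocalRing R] [IsNoetherianRing R] {x : Fin (n + 1) → R}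
  {X : Fin (n + 1) → Derivation ℂ R R} {Z : Fin (n + 1) → Derivation ℂ L L}

theorem Ch.mono (C : Ch R x X Z) (G : Gm A R) {w : Fin (n + 1) → ℕ} (hw : ∀ i, 1 ≤ w i)
    (hg : ∃ i j, w i = w j + 1 ∨ w i = 1) :
    ∃ W : Val L, DivN n A Set.univ W ∧ (∀ (r : R) (k : ℕ), r ∈ WI x w k → Ge W k (r : L)) ∧
      (∀ (D : Derivation ℂ L L) (k : ℤ), (∀ i, Ge W (w i + k) (D (x i))) → Reg W k D) ∧
      ∀ τ : Fin (n + 1) → Derivation ℂ L L, LinearIndependent L τ →
        ord W (Matrix.of fun i j => τ i (x j)).det + 1 - ∑ i, (w i : ℤ) ≤ -can τ W := by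
  classical
  obtain ⟨o, ho, hm⟩ := C.co.exists_ord hw
  have hne : ∀ {f : L} {hf : f ∈ R}, f ≠ 0 → (⟨f, hf⟩ : R) ≠ 0 := fun h h' => h (congrArg Subtype.val h')
  obtain ⟨W, hW⟩ := exists_val_frac R.toSubring G.frac (fun f => if h : f ∈ R then o ⟨f, h⟩ else 0)
    (fun f (hf : f ∈ R) g (hg : g ∈ R) h0 h0' => by
      rw [dif_pos hf, dif_pos hg, dif_pos (R.mul_mem hf hg)]
      exact_mod_cast (hm ⟨f, hf⟩ ⟨g, hg⟩ (hne h0) (hne h0')).2)
    (fun f (hf : f ∈ R) g (hg : g ∈ R) h0 h0' h1 => by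
      rw [dif_pos hf, dif_pos hg, dif_pos (R.add_mem hf hg)]
      exact_mod_cast (ho _ (hne h1) _).mp (add_mem (b := (⟨g, hg⟩ : R)) (a := ⟨f, hf⟩)
        ((ho _ (hne h0) _).mpr (min_le_left _ _)) ((ho _ (hne h0') _).mpr (min_le_right _ _))))
  have hW' : ∀ r : R, (r : L) ≠ 0 → ord W (r : L) = o r ∧ r ∈ WI x w (o r) := fun r h0 =>
    ⟨by rw [hW r r.2 h0, dif_pos r.2], (ho r (hne h0) _).mpr le_rfl⟩
  have h1 : ∀ (r : R) (k : ℕ), r ∈ WI x w k → Ge W k (r : L) := fun r k h h0 => by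
    rw [(hW' r h0).1]; exact_mod_cast (ho r (hne h0) k).mp h
  have h0 : ∀ r ∈ R, Ge W 0 r := fun r hr => h1 ⟨r, hr⟩ 0 (WI_zero _)
  have h2 : ∀ i, Reg W (-w i) (Z i) := fun i f => by
    simpa using reg_of_frac (w := W) (D := Z i) (k := -w i) G.frac (fun _ => 0) (by simp) (fun r hr => by
      rw [zero_mul, sub_zero]
      by_cases r0 : r = 0
      · rw [r0, map_zero]; exact Ge.zero _
      obtain ⟨a1, a2⟩ := hW' ⟨r, hr⟩ r0
      rw [C.ext i ⟨r, hr⟩]
      exact (h1 _ _ (C.co.WI_X i a2)).mono (by rw [a1]; omega)) f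
  have h3 : ∀ (D : Derivation ℂ L L) (k : ℤ), (∀ i, Ge W (w i + k) (D (x i))) → Reg W k D := fun D k h f => by
    rw [C.decomp D f]
    exact Ge.sum fun i _ => ((h i).mul (h2 i f)).mono (by omega)
  have h4 : ∀ i, ord W (x i : L) = w i := fun i => by
    have a1 := h1 _ _ (WI_x (x := x) (w := w) i) (C.x0 i)
    have a2 := h2 i (x i) (by rw [C.Zx, if_pos rfl]; exact one_ne_zero)
    rw [C.Zx, if_pos rfl, ord_one] at a2
    omega
  have ht := triv_of h0
  have h5 : ∀ f, Ge W 0 f → Ge W 1 ((∑ i, ((w i : L) * x i) • Z i) f) := fun f hf => by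
    have := reg_of_frac (w := W) (D := ∑ i, ((w i : L) * x i) • Z i) (k := 1) G.frac Int.cast Int.cast_sub
      (fun r hr => by
        by_cases r0 : r = 0
        · rw [r0, map_zero, mul_zero, sub_zero]; exact Ge.zero _
        obtain ⟨a1, a2⟩ := hW' ⟨r, hr⟩ r0
        rw [der_sum, a1]
        simpa only [Derivation.coe_smul, Pi.smul_apply, C.ext _ ⟨r, hr⟩, smul_eq_mul, mul_assoc, Int.cast_natCast, Nat.cast_add, Nat.cast_one, AddSubgroupClass.coe_sub, AddSubmonoidClass.coe_finsetSum, MulMemClass.coe_mul, SubringClass.coe_natCast] using h1 _ _ (C.co.eul hw a2)) f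
    by_cases f0 : f = 0
    · rw [f0, map_zero]; exact Ge.zero _
    have a1 := hf f0
    rw [← sub_add_cancel ((∑ i, ((w i : L) * x i) • Z i) f) ((ord W f : L) * f)]
    refine (this.mono (by omega)).add ?_
    rcases a1.eq_or_lt with a1 | a1
    · rw [← a1, Int.cast_zero, zero_mul]; exact Ge.zero _
    · exact (ht.intge _).mul0 fun _ => a1
  have hs : ∀ j : Fin n, Un W ((x j.succ : L) ^ w 0 / (x 0 : L) ^ w j.succ) := fun j =>
    ⟨div_ne_zero (pow_ne_zero _ (C.x0 _)) (pow_ne_zero _ (C.x0 _)), by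
      rw [ord_div (pow_ne_zero _ (C.x0 _)) (pow_ne_zero _ (C.x0 _)), ord_pow, ord_pow, h4, h4]; ring⟩
  have w0 : Un W (w 0 : L) := by simpa only [Int.cast_natCast] using ht.int (n := w 0) (by have := hw 0; omega)
  refine ⟨W, divN_iff.mpr ⟨?_, fun a ha => h0 a (G.le a ha), _, fun _ => trivial, fun p hp =>
    (triv_mv ht (fun j => (hs j).ge) p).un fun h => hp (zero_of_pderiv
      (I := fun p => Ge W 1 (aeval (fun j : Fin n => (x j.succ : L) ^ w 0 / (x 0 : L) ^ w j.succ) p))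
      (fun p i hp => ?_) (fun c hc => by_contra fun c0 => (ht c c0).not_ge (by simpa using hc)) h)⟩,
    h1, h3, fun τ hτ => (le_can (fun f hf => ?_) (fun j => (x j : L)) (fun j => h0 _ (x j).2) (C.det_ne hτ)).1⟩
  · obtain ⟨i, j, h | h⟩ := hg
    · exact ⟨x i / x j, div_ne_zero (C.x0 _) (C.x0 _), by rw [ord_div (C.x0 _) (C.x0 _), h4, h4]; omega⟩
    · exact ⟨x i, C.x0 _, by rw [h4]; omega⟩
  · have := ((h2 i.succ).smul (Ge.self (x i.succ : L))).ge hp
    rw [der_aeval, Finset.sum_eq_single i (fun j _ hj => by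
      simp only [logd (C.x0 _) (C.x0 _), Derivation.coe_smul, Pi.smul_apply, C.Zx, Fin.succ_inj, hj.symm, ↓ reduceIte, smul_eq_mul, mul_zero, zero_div, Fin.succ_ne_zero, sub_self]) (by simp only [Finset.mem_univ, not_true_eq_false, Derivation.coe_smul, Pi.smul_apply, smul_eq_mul, mul_eq_zero, ZeroMemClass.coe_eq_zero, IsEmpty.forall_iff]), logd (C.x0 _) (C.x0 _)] at this
    simp only [Derivation.smul_apply, C.Zx, smul_eq_mul, if_true, mul_one, div_self (C.x0 _),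
      Fin.succ_ne_zero, if_false, mul_zero, zero_div, sub_zero, h4] at this
    exact ((hs i).mul w0).cancel (by rw [mul_comm]; exact this.mono (by omega))
  · rw [C.det_eq τ f, add_sub_assoc]
    refine (Ge.self _).mul (Ge.of_mul (mul_ne_zero w0.1 (C.x0 0)) ?_)
    rw [← smul_eq_mul (_ * _), ← Matrix.det_updateRow_sum _ 0 fun i => (w i : L) * x i]
    refine (ge_det (a := Fin.cons 1 fun i => -w i.succ) (b := 0) fun i j => ?_).mono ?_
    · refine Fin.cases ?_ (fun i => ?_) i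
      · have := h5 _ (hf j)
        rw [der_sum] at this
        simpa only [Fin.cons_zero, Pi.zero_apply, add_zero, Matrix.updateRow_self, Finset.sum_apply, Pi.smul_apply, Matrix.of_apply, smul_eq_mul, Derivation.coe_smul] using this
      · simpa only [Fin.cons_succ, Pi.zero_apply, add_zero, ne_eq, Fin.succ_ne_zero, not_false_eq_true, Matrix.updateRow_ne, Matrix.of_apply, zero_add] using (h2 i.succ).ge (hf j)
    · rw [ord_mul w0.1 (C.x0 0), w0.2, h4]
      simp only [zero_add, Fin.sum_univ_succ, Fin.cons_zero, Fin.cons_succ, Finset.sum_neg_distrib, Pi.zero_apply, Finset.sum_const_zero, add_zero, le_add_neg_iff_add_le]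
      omega

/-- the prime divisors through the closed point of `R` -/
structure Pr (n : ℕ) (A R : Subalgebra ℂ L) [IsLocalRing R] {ι : Type} (γ : ι → R) (Q : ι → Val L) : Prop where
  M : ∀ i, γ i ∈ maximalIdeal R
  ne : ∀ i, (γ i : L) ≠ 0
  ge : ∀ i, ∀ r ∈ R, Ge (Q i) 0 r
  one : ∀ i, ord (Q i) (γ i : L) = 1
  dvd : ∀ i (r : R), Ge (Q i) 1 (r : L) → γ i ∣ r
  div : ∀ i, DivN n A A (Q i)
  off : ∀ i j, i ≠ j → ord (Q i) (γ j : L) = 0
  fac : ∀ f, f ≠ 0 → ∃ S0 : Finset ι, ∀ w : Val L, (∀ r ∈ R, Ge w 0 r) → ∀ S, S0 ⊆ S →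
    ord w f = ∑ i ∈ S, ord (Q i) f * ord w (γ i : L)
  gcd : ∀ D : Derivation ℂ L L, D ≠ 0 → ∃ g : L, g ≠ 0 ∧ (∀ r ∈ R, (g⁻¹ • D) r ∈ R) ∧
    ∀ i, ∃ r ∈ R, Un (Q i) ((g⁻¹ • D) r)

lemma Co.not_dvd {S : Type} [CommRing S] [Algebra ℂ S] [IsLocalRing S] [IsNoetherianRing S]
    {x : Fin (n + 1) → S} {X : Fin (n + 1) → Derivation ℂ S S} (C : Co x X) {g : S} (hg : Prime g) :
    ∃ i : Fin (n + 1), ∀ p : MP n, g ∣ aeval (fun j => x (i.succAbove j)) p → p = 0 := by
  have := C.domain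
  obtain ⟨o, ho, hm⟩ := C.exists_ord (w := 1) fun _ => le_rfl
  obtain ⟨i, hi⟩ : ∃ i, ¬ g ∣ X i g := by
    by_contra hc
    push Not at hc
    choose u hu using hc
    have h1 : 1 ≤ o g := (ho g hg.ne_zero 1).mp (span_le_WI (fun _ => le_rfl) (C.max_le hg.not_isUnit))
    have h2 := C.eul (fun _ => le_rfl) ((ho g hg.ne_zero _).mpr le_rfl)
    have h3 : (o g : S) * g ∈ WI x 1 (o g + 1) := by
      rw [← sub_sub_cancel (∑ i, ((1 : ℕ) : S) * (x i * X i g)) (o g * g)]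
      refine sub_mem (sum_mem fun i _ => Ideal.mul_mem_left _ _ ?_) h2
      rw [hu, mul_left_comm]
      exact WI_mul ((ho g hg.ne_zero _).mpr le_rfl) (Ideal.mul_mem_right _ _ (WI_x i))
    rw [← map_natCast (algebraMap ℂ S), Ideal.unit_mul_mem_iff_mem _
      ((Ne.isUnit (Nat.cast_ne_zero.mpr (by omega))).map _), ho g hg.ne_zero] at h3
    omega
  refine ⟨i, fun p hp => by_contra fun p0 => ?_⟩
  have h1 : aeval (fun j => x (i.succAbove j)) p ≠ 0 := fun h => p0 (rename_injective _ i.succAbove_right_injective (by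
    ext α
    rw [map_zero]
    exact C.uniq (w := 1) (k := α.degree + 1) (fun _ => le_rfl)
      (by rw [aeval_rename]; exact (show _ = (0 : S) from h) ▸ zero_mem _) (by rw [wt_one]; omega)))
  obtain ⟨k, u, hu, e⟩ := WfDvdMonoid.max_power_factor h1 hg.irreducible
  have h2 := der_aeval (X i) (fun j => x (i.succAbove j)) p
  rw [Finset.sum_eq_zero fun j _ => by rw [C.Xx, if_neg (i.succAbove_ne j).symm, mul_zero], e] at h2
  rcases k with _ | k
  · exact hu (by simpa only [e, pow_zero, one_mul] using hp)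
  rw [Derivation.leibniz, Derivation.leibniz_pow] at h2
  have h3 : g ^ k * (g * X i u + algebraMap ℂ S (k + 1) * (u * X i g)) = 0 := by
    rw [← h2]; simp only [smul_eq_mul, nsmul_eq_mul, Nat.add_sub_cancel, map_add, map_natCast, map_one]
    push_cast; ring
  have h4 := (dvd_add_right (dvd_mul_right g (X i u))).mp
    ((mul_eq_zero.mp h3).resolve_left (pow_ne_zero _ hg.ne_zero) ▸ dvd_zero g)
  rw [((Ne.isUnit (Nat.cast_add_one_ne_zero k)).map _).dvd_mul_left] at h4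
  exact (hg.dvd_or_dvd h4).elim hu hi

theorem Ch.exists_pr (C : Ch R x X Z) (G : Gm A R) (hx : ∀ i, (x i : L) ∈ A) :
    ∃ (ι : Type) (γ : ι → R) (Q : ι → Val L), Pr n A R γ Q := by
  classical
  have := C.co.ufd
  have hne : ∀ {f : L} {hf : f ∈ R}, f ≠ 0 → (⟨f, hf⟩ : R) ≠ 0 := fun h h' => h (congrArg Subtype.val h')
  choose γ hγ eγ using fun i : {I : Ideal R // ∃ g, Prime g ∧ I = Ideal.span {g}} => i.2
  choose Q hQ using fun g : {I : Ideal R // ∃ g, Prime g ∧ I = Ideal.span {g}} =>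
    exists_val_frac R.toSubring G.frac (fun f => if h : f ∈ R then multiplicity (γ g) ⟨f, h⟩ else 0)
    (fun f (hf : f ∈ R) f' (hf' : f' ∈ R) h0 h0' => by
      rw [dif_pos hf, dif_pos hf', dif_pos (R.mul_mem hf hf')]
      exact_mod_cast multiplicity_mul (hγ g) (a := ⟨f, hf⟩) (b := ⟨f', hf'⟩)
        (.of_prime_left (hγ g) (mul_ne_zero (hne h0) (hne h0'))))
    (fun f (hf : f ∈ R) f' (hf' : f' ∈ R) h0 h0' h1 => by
      rw [dif_pos hf, dif_pos hf', dif_pos (R.add_mem hf hf')]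
      exact_mod_cast (FiniteMultiplicity.of_prime_left (hγ g) (hne h1)).le_multiplicity_of_pow_dvd
        (dvd_add (c := (⟨f', hf'⟩ : R)) (b := ⟨f, hf⟩) (pow_dvd_of_le_multiplicity (min_le_left _ _))
          (pow_dvd_of_le_multiplicity (min_le_right _ _))))
  have hQ' : ∀ i (f : R), (f : L) ≠ 0 → ord (Q i) (f : L) = multiplicity (γ i) f := fun i f h0 => by
    rw [hQ i f f.2 h0, dif_pos f.2]
  have g0 : ∀ i, (γ i : L) ≠ 0 := fun i h => (hγ i).ne_zero (Subtype.ext h)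
  have hge : ∀ i, ∀ r ∈ R, Ge (Q i) 0 r := fun i r hr h0 => by rw [hQ' i ⟨r, hr⟩ h0]; positivity
  have hone : ∀ i, ord (Q i) (γ i : L) = 1 := fun i => by
    rw [hQ' i _ (g0 i)]; exact_mod_cast multiplicity_self
  have hdvd : ∀ i (r : R), Ge (Q i) 1 (r : L) → γ i ∣ r := fun i r h => by
    by_cases h0 : (r : L) = 0
    · rw [show r = 0 from Subtype.ext h0]; exact dvd_zero _
    have := h h0
    rw [hQ' i r h0] at this
    exact dvd_of_multiplicity_pos (by omega)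
  have hij : ∀ i j, i ≠ j → ord (Q i) (γ j : L) = 0 := fun i j hne =>
    ((hge i _ (γ j).2).un fun h => hne (Subtype.ext (by
      rw [eγ, eγ, Ideal.span_singleton_eq_span_singleton]
      exact (hγ i).associated_of_dvd (hγ j) (hdvd i _ h)))).2
  refine ⟨_, γ, Q, fun i => (hγ i).not_isUnit, g0, hge, hone, hdvd, fun i => ?_, hij, ?_, fun D hD => ?_⟩
  · obtain ⟨j, hj⟩ := C.co.not_dvd (hγ i)
    refine divN_iff.mpr ⟨⟨_, g0 i, hone i⟩, fun a ha => hge i a (G.le a ha), fun k => x (j.succAbove k),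
      fun k => hx _, fun p hp => ?_⟩
    have e : aeval (fun k => (x (j.succAbove k) : L)) p = (aeval (fun k => x (j.succAbove k)) p : R) :=
      (comp_aeval_apply _ R.val p).symm
    rw [e]
    exact (hge i _ (Subtype.mem _)).un fun h => hp (hj p (hdvd i _ h))
  · let P : L → Prop := fun f => ∃ S0 : Finset _, ∀ w : Val L, (∀ r ∈ R, Ge w 0 r) → ∀ S, S0 ⊆ S →
      ord w f = ∑ i ∈ S, ord (Q i) f * ord w (γ i : L)
    have hmul : ∀ f g, f ≠ 0 → g ≠ 0 → P f → P g → P (f * g) := by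
      rintro f g hf hg ⟨S1, a1⟩ ⟨S2, a2⟩
      refine ⟨S1 ∪ S2, fun w hw S hS => ?_⟩
      simp only [ord_mul hf hg, add_mul, Finset.sum_add_distrib]
      rw [a1 w hw S (Finset.union_subset_left hS), a2 w hw S (Finset.union_subset_right hS)]
    have hun : ∀ u : R, IsUnit u → P u := by
      intro u hu
      obtain ⟨a1, a2⟩ := inv_of_not_Mx u.2 fun h => (coe_mem_Mx.mp h) hu
      exact ⟨∅, fun w hw S _ => by simp [(un_of_inv (hge _) a1 u.2 a2).2, (un_of_inv hw a1 u.2 a2).2]⟩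
    have hR' : ∀ r : R, (r : L) ≠ 0 → P r := by
      intro r
      induction r using UniqueFactorizationMonoid.induction_on_prime with
      | h₁ => exact fun h => absurd rfl h
      | h₂ u hu => exact fun _ => hun u hu
      | h₃ a p ha hp ih =>
        intro h
        refine hmul _ _ (left_ne_zero_of_mul h) (right_ne_zero_of_mul h) ?_ (ih (right_ne_zero_of_mul h))
        let j : {I : Ideal R // ∃ g, Prime g ∧ I = Ideal.span {g}} := ⟨_, p, hp, rfl⟩
        obtain ⟨u, hu⟩ := (Ideal.span_singleton_eq_span_singleton.mp (eγ j)).symm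
        rw [← hu]
        refine hmul _ _ (g0 j) (fun h => u.ne_zero (Subtype.ext h)) ⟨{j}, fun w _ S hS => ?_⟩ (hun _ u.isUnit)
        rw [Finset.sum_eq_single_of_mem j (hS (Finset.mem_singleton_self j)) fun i _ hi => by
          rw [hij i j hi, zero_mul], hone, one_mul]
    intro f hf
    obtain ⟨a, ha, b, hb, h0, rfl⟩ := G.frac f
    rw [div_eq_mul_inv] at hf ⊢
    refine hmul _ _ (left_ne_zero_of_mul hf) (right_ne_zero_of_mul hf) (hR' ⟨a, ha⟩ (left_ne_zero_of_mul hf)) ?_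
    obtain ⟨S, hS⟩ := hR' ⟨b, hb⟩ h0
    exact ⟨S, fun w hw S' h => by simp only [ord_inv, neg_mul, Finset.sum_neg_distrib, hS w hw S' h]⟩
  · choose a ha b hb b0 e using fun i => G.frac (D (x i))
    let c : Fin (n + 1) → R := fun i => ⟨a i, ha i⟩ * ∏ j ∈ Finset.univ.erase i, (⟨b j, hb j⟩ : R)
    have hB : (∏ j, b j) ≠ 0 := Finset.prod_ne_zero_iff.mpr fun j _ => b0 j
    have hc : ∀ i, (c i : L) = (∏ j, b j) * D (x i) := fun i => by
      have := b0 i
      rw [e, ← Finset.mul_prod_erase _ _ (Finset.mem_univ i)]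
      simp only [c, Subalgebra.coe_mul, SubmonoidClass.coe_finsetProd]
      field_simp
    let _ : NormalizedGCDMonoid R := Classical.arbitrary _
    obtain ⟨u, hu, h1⟩ := Finset.extract_gcd c (Finset.univ_nonempty (α := Fin (n + 1)))
    have k0 : ((Finset.univ.gcd c : R) : L) ≠ 0 := fun h => hD (C.zero D fun i => by
      have := congrArg Subtype.val (hu i (Finset.mem_univ i))
      rw [hc, Subalgebra.coe_mul, h, zero_mul] at this
      exact (mul_eq_zero.mp this).resolve_left hB)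
    have h2 : ∀ i, ((((Finset.univ.gcd c : R) : L) / ∏ j, b j)⁻¹ • D) (x i) = u i := fun i => by
      have := congrArg Subtype.val (hu i (Finset.mem_univ i))
      rw [hc, Subalgebra.coe_mul] at this
      rw [Derivation.smul_apply, smul_eq_mul, inv_div, div_mul_eq_mul_div, this, mul_div_cancel_left₀ _ k0]
    refine ⟨_, div_ne_zero k0 hB, fun r hr => ?_, fun i => by_contra fun hc => ?_⟩
    · rw [C.decomp]
      exact sum_mem fun i _ => mul_mem (h2 i ▸ (u i).2) (C.mem i hr)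
    · exact (hγ i).not_isUnit (isUnit_of_dvd_one (h1 ▸ Finset.dvd_gcd fun j _ => hdvd i _
        (of_not_not fun h => hc ⟨x j, (x j).2, h2 j ▸ (hge i _ (u j).2).un h⟩)))

end Pool.Agent.MP_c54dba_ag.H70

end

section

/-! The local formula and the gap. -/

set_option autoImplicit false

namespace Pool.Agent.MP_c54dba_ag.H70

open MvPolynomial IsLocalRing

variable {L : Type} [Field L] [Algebra ℂ L] {n : ℕ} {A R : Subalgebra ℂ L} {D : Val L → ℝ} {E : Val L}

lemma pull_fin {κ : Type} [Fintype κ] (c : κ → ℝ) (f : κ → L) (h0 : ∀ i, f i ≠ 0)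
    (h : ∀ P, DivN n A A P → (∀ a ∈ A, 0 < P a → 0 < E a) → D P = ∑ i, c i * ord P (f i)) :
    PullN n A D E (∑ i, c i * ord E (f i)) :=
  ⟨_, c ∘ (Fintype.equivFin κ).symm, f ∘ (Fintype.equivFin κ).symm, fun _ => h0 _, fun P a b =>
    (h P a b).trans ((Fintype.equivFin κ).symm.sum_comp fun i => c i * ord P (f i)).symm,
    ((Fintype.equivFin κ).symm.sum_comp fun i => c i * ord E (f i)).symm⟩

lemma aeval_mem {s : Fin n → L} (hs : ∀ i, s i ∈ R) (p : MP n) : aeval s p ∈ R := by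
  induction p using MvPolynomial.induction_on with
  | C a => rw [algHom_C]; exact R.algebraMap_mem a
  | add p q hp hq => rw [map_add]; exact add_mem hp hq
  | mul_X p i hp => rw [map_mul, aeval_X]; exact mul_mem hp (hs i)

lemma ev_mem {s : Fin n → L} (hs : ∀ i, s i ∈ R) {z : L} (hz : z ∈ R) (P : Polynomial (MP n)) :
    ev s z P ∈ R := by
  induction P using Polynomial.induction_on' with
  | add p q hp hq => rw [map_add]; exact add_mem hp hq
  | monomial k a => rw [ev_monomial]; exact mul_mem (aeval_mem hs a) (pow_mem hz k)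

lemma Gm.ge (G : Gm A R) {w : Val L} (hw : ∀ a ∈ A, Ge w 0 a)
    (h : ∀ b ∈ A, b ≠ 0 → b⁻¹ ∈ R → ¬ Ge w 1 b) : ∀ r ∈ R, Ge w 0 r := fun r hr => by
  obtain ⟨a, ha, b, hb, b0, hb', rfl⟩ := G.loc r hr
  rw [div_eq_mul_inv]
  exact (hw a ha).mul0 ((hw b hb).un (h b hb b0 hb')).inv.ge

variable [IsLocalRing R] {ι : Type} {γ : ι → R} {Q : ι → Val L}

lemma un_of_not (h : ∀ r ∈ R, Ge E 0 r) {r : R} (hr : r ∉ maximalIdeal R) : Un E (r : L) :=
  have := inv_of_not_Mx r.2 (mt coe_mem_Mx.mp hr)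
  un_of_inv h this.1 r.2 this.2

lemma Pr.down (P : Pr n A R γ Q) {w : Val L} (hw : ∀ r ∈ R, Ge w 0 r) {i : ι} (h : Ge w 1 (γ i : L)) {z : L}
    (hz : z ∈ R) (h1 : Ge (Q i) 1 z) : Ge w 1 z := by
  obtain ⟨u, hu⟩ := P.dvd i ⟨z, hz⟩ h1
  rw [show z = γ i * u from congrArg Subtype.val hu]
  exact h.mul (hw _ u.2)

lemma Pr.cls (P : Pr n A R γ Q) (G : Gm A R) (ht : Algebra.trdeg ℂ L = (n + 1 : ℕ)) {w : Val L}
    (hw : DivN n A A w) (h0 : ∀ r ∈ R, Ge w 0 r) : ∃ i, w = Q i := by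
  classical
  obtain ⟨⟨π, π0, π1⟩, -, s, hs, hri⟩ := divN_iff.mp hw
  replace hs : ∀ j, s j ∈ R := fun j => G.le _ (hs j)
  obtain ⟨i, hi⟩ : ∃ i, Ge w 1 (γ i : L) := by
    by_contra hc
    push Not at hc
    obtain ⟨S, hS⟩ := P.fac π π0
    have := hS w h0 S subset_rfl
    rw [π1, Finset.sum_eq_zero fun i _ => by rw [((h0 _ (γ i).2).un (hc i)).2, mul_zero]] at this
    exact one_ne_zero this
  have F : Fr (Q i) (γ i) s := ⟨P.ne i, by rw [P.one]; exact one_pos, fun p hp =>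
    (P.ge i _ (aeval_mem hs p)).un fun h => (hri p hp).not_ge (P.down h0 hi (aeval_mem hs p) h)⟩
  have key : ∀ j, j ≠ i → ord w (γ j : L) = 0 := fun j hj => ((h0 _ (γ j).2).un fun h => by
    obtain ⟨Φ, Φ0, hΦ⟩ := F.res ht (P.ge i _ (γ j).2)
    obtain ⟨k, Ψ, hΨ, rfl⟩ := WfDvdMonoid.max_power_factor' Φ0 (Polynomial.not_isUnit_X (R := MP n))
    rw [map_mul, map_pow, ev_X] at hΦ
    have h1 : Un (Q i) ((γ j : L) ^ k) := ⟨pow_ne_zero _ (P.ne j), by rw [ord_pow, P.off i j hj.symm, mul_zero]⟩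
    exact ((⟨P.ne j, h (P.ne j), hri⟩ : Fr w (γ j) s).ev_un (mt Polynomial.X_dvd_iff.mpr hΨ)).not_ge
      (P.down h0 hi (ev_mem hs (γ j).2 Ψ) (h1.cancel hΦ))).2
  have h2 : ∀ f, f ≠ 0 → ord w f = ord (Q i) f * ord w (γ i : L) := fun f hf => by
    obtain ⟨S, hS⟩ := P.fac f hf
    rw [hS w h0 _ (Finset.subset_insert i S), Finset.sum_eq_single_of_mem i (Finset.mem_insert_self _ _)
      fun j _ hj => by rw [key j hj, mul_zero]]
  have h3 : ord w (γ i : L) = 1 :=
    Int.eq_one_of_mul_eq_one_left (by have := hi (P.ne i); omega) ((h2 π π0).symm.trans π1)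
  refine ⟨i, AddValuation.ext fun f => ?_⟩
  by_cases hf : f = 0
  · simp [hf]
  · rw [val_eq hf, val_eq hf, h2 f hf, h3, mul_one]

lemma Pr.uniq (P : Pr n A R γ Q) (G : Gm A R) (h0 : ∀ r ∈ R, Ge E 0 r) {z z' : ℝ} (h : PullN n A D E z)
    (h' : PullN n A D E z') : z = z' := by
  classical
  have key : ∀ z, PullN n A D E z → ∃ S0 : Finset ι, ∀ S, S0 ⊆ S → z = ∑ i ∈ S, D (Q i) * ord E (γ i : L) := by
    rintro _ ⟨k, c, f, f0, hD, rfl⟩
    choose S0 hS using fun j => P.fac (f j) (f0 j)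
    refine ⟨Finset.univ.biUnion S0, fun S h => ?_⟩
    rw [Finset.sum_congr rfl fun j _ => by
      rw [hS j E h0 S ((Finset.subset_biUnion_of_mem S0 (Finset.mem_univ j)).trans h)]]
    simp only [Int.cast_sum, Int.cast_mul, Finset.mul_sum]
    rw [Finset.sum_comm]
    refine Finset.sum_congr rfl fun i _ => ?_
    by_cases hi : Ge E 1 (γ i : L)
    · rw [hD _ (P.div i) fun a ha h1 => ge1_iff.mp (P.down h0 hi (G.le a ha) (ge1_iff.mpr h1)), Finset.sum_mul]
      simp only [mul_assoc]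
    · simp only [((h0 _ (γ i).2).un hi).2, Int.cast_zero, mul_zero, Finset.sum_const_zero]
  obtain ⟨S, hS⟩ := key z h
  obtain ⟨S', hS'⟩ := key z' h'
  rw [hS _ Finset.subset_union_left, hS' _ Finset.subset_union_right]

/-- the inequality along one divisor -/
def LCat (n : ℕ) {r : ℕ} (A : Subalgebra ℂ L) (δ : Fin r → Derivation ℂ L L)
    (τ : Fin (n + 1) → Derivation ℂ L L) (B : Val L → ℝ) (t : ℝ) (E : Val L) : Prop :=
  ∃ x, PullN n A (fun P => t * can δ P + (1 - t) * can τ P +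
      (eps δ P * B P + (1 - t) * ((1 - eps δ P) * B P))) E x ∧
    x - (t * can δ E + (1 - t) * can τ E) ≤ t * eps δ E + (1 - t)

variable [Algebra.EssFiniteType ℂ L] {x : Fin (n + 1) → R} {X : Fin (n + 1) → Derivation ℂ R R}
  {Z τ : Fin (n + 1) → Derivation ℂ L L} {δ : Fin 1 → Derivation ℂ L L} {g : L} {B : Val L → ℝ} {s : Finset ι}

/-- the data at a point -/
structure Dt (n : ℕ) (A R : Subalgebra ℂ L) [IsLocalRing R] (γ : ι → R) (Q : ι → Val L)
    (δ : Fin 1 → Derivation ℂ L L) (τ : Fin (n + 1) → Derivation ℂ L L) (g : L) (B : Val L → ℝ)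
    (s : Finset ι) : Prop where
  P : Pr n A R γ Q
  G : Gm A R
  ht : Algebra.trdeg ℂ L = (n + 1 : ℕ)
  hδ : LinearIndependent L δ
  hτ : LinearIndependent L τ
  g0 : g ≠ 0
  hv : ∀ r ∈ R, (g⁻¹ • δ 0) r ∈ R
  hv' : ∀ i, ∃ r ∈ R, Un (Q i) ((g⁻¹ • δ 0) r)
  hs : ∀ i ∉ s, B (Q i) = 0

lemma Dt.loc (H : Dt n A R γ Q δ τ g B s) (C : Ch R x X Z) (hE : DivN n A Set.univ E)
    (h0 : ∀ r ∈ R, Ge E 0 r) : ∃ k, IsLo E (g⁻¹ • δ 0) k ∧ ∀ t, LCat n A δ τ B t E ↔
      ∑ i ∈ s, coef t (B (Q i)) (eps δ (Q i)) * ord E (γ i : L) + t * k ≤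
        (1 - t) * (1 + can τ E + ord E (Matrix.of fun i j => τ i (x j)).det) := by
  classical
  have j0 := C.det_ne H.hτ
  have hg : ∀ f, δ 0 f = g * (g⁻¹ • δ 0) f := fun f => by
    rw [Derivation.smul_apply, smul_eq_mul, mul_inv_cancel_left₀ H.g0]
  have hcan : ∀ i, can δ (Q i) = -ord (Q i) g ∧ can τ (Q i) = -ord (Q i) (Matrix.of fun i j => τ i (x j)).det := by
    intro i
    obtain ⟨-, -, s', s1, s2⟩ := divN_iff.mp (H.P.div i)
    have F : Fr (Q i) (γ i) s' := ⟨H.P.ne i, by rw [H.P.one]; exact one_pos, s2⟩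
    have po : ∀ D : Derivation ℂ L L, (∀ r ∈ R, D r ∈ R) → ∀ f, Ge (Q i) 0 f → Ge (Q i) 0 (D f) :=
      fun D hD f hf => F.po H.ht (H.P.one i) (H.P.ge i _ (hD _ (γ i).2))
        (fun j => H.P.ge i _ (hD _ (H.G.le _ (s1 j)))) hf
    obtain ⟨r, r1, r2⟩ := H.hv' i
    refine ⟨can_eq (fun f hf => ?_) ![r] (fun j => by fin_cases j; exact H.P.ge i r r1) ?_ ?_,
      can_eq (fun f hf => ?_) (fun j => (x j : L)) (fun j => H.P.ge i _ (x j).2) j0 rfl⟩
    · rw [Matrix.det_fin_one, Matrix.of_apply, hg]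
      exact ((Ge.self g).mul (po _ H.hv _ (hf 0))).mono (add_zero _).ge
    · rw [Matrix.det_fin_one, Matrix.of_apply, hg]
      exact mul_ne_zero H.g0 r2.1
    · rw [Matrix.det_fin_one, Matrix.of_apply, hg]
      exact (ord_mul H.g0 r2.1).trans (by rw [r2.2, add_zero])
    · rw [C.det_eq τ f]
      exact ((Ge.self _).mul (ge_det (a := 0) (b := 0) fun i j =>
        po _ (fun r hr => C.mem i hr) _ (hf j))).mono (by simp)
  obtain ⟨e, s', F, o⟩ := hE.frame
  obtain ⟨k, k1, k2⟩ := F.can_one H.ht o H.hδ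
  refine ⟨_, k1.smul (inv_ne_zero H.g0), fun t => ?_⟩
  have hp := pull_fin (n := n) (A := A) (E := E) (D := fun P => t * can δ P + (1 - t) * can τ P +
      (eps δ P * B P + (1 - t) * ((1 - eps δ P) * B P))) (κ := Option (Option s))
    (fun o => o.elim (-t) fun o => o.elim (-(1 - t)) fun i => coef t (B (Q i)) (eps δ (Q i)))
    (fun o => o.elim g fun o => o.elim (Matrix.of fun i j => τ i (x j)).det fun i => γ i)
    (by rintro (_ | _ | i); exacts [H.g0, j0, H.P.ne i]) fun P hP hc => by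
      obtain ⟨i, rfl⟩ := H.P.cls H.G H.ht hP (H.G.ge (divN_iff.mp hP).2.1 fun b hb b0 hb' h =>
        (un_of_inv h0 b0 (H.G.le b hb) hb').not_ge (ge1_iff.mpr (hc b hb (ge1_iff.mp h))))
      simp only [Fintype.sum_option, Option.elim]
      rw [Finset.sum_coe_sort s fun j => coef t (B (Q j)) (eps δ (Q j)) * (ord (Q i) (γ j : L) : ℝ),
        Finset.sum_eq_single i (fun j _ hj => by rw [H.P.off i j hj.symm, Int.cast_zero, mul_zero])
          (fun hi => by simp [H.hs i hi, coef]), H.P.one, (hcan i).1, (hcan i).2, coef]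
      push_cast; ring
  simp only [Fintype.sum_option, Option.elim] at hp
  rw [Finset.sum_coe_sort s fun j => coef t (B (Q j)) (eps δ (Q j)) * (ord E (γ j : L) : ℝ)] at hp
  rw [ord_inv]
  push_cast
  have k3 := congrArg (t * ·) k2
  refine ⟨fun ⟨z, h1, h2⟩ => ?_, fun h => ⟨_, hp, by linarith⟩⟩
  rw [H.P.uniq H.G h0 h1 hp] at h2
  linarith

variable [IsNoetherianRing R]

lemma Dt.key (H : Dt n A R γ Q δ τ g B s) (C : Ch R x X Z) {t : ℝ} (t0 : 0 ≤ t) (t1 : t ≤ 1)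
    (hLC : ∀ W, DivN n A Set.univ W → LCat n A δ τ B t W) (hB : ∀ P, 0 ≤ B P) {V : Derivation ℂ R R}
    (hV : ∀ r : R, (V r : L) = (g⁻¹ • δ 0) r) {w : Fin (n + 1) → ℕ} (hw : ∀ i, 1 ≤ w i)
    (hg : ∃ i j, w i = w j + 1 ∨ w i = 1) {k : ℤ} (hk : ∀ i, ∃ m : ℕ, V (x i) ∈ WI x w m ∧ (w i : ℤ) + k ≤ m)
    {κ : ι → ℕ} (hκ : ∀ i, γ i ∈ WI x w (κ i)) :
    ∑ i ∈ s, eps δ (Q i) * B (Q i) * κ i + t * k ≤ (1 - t) * ∑ i, (w i : ℝ) := by
  obtain ⟨W, h1, h2, h3, h4⟩ := C.mono H.G hw hg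
  obtain ⟨l, l1, l2⟩ := H.loc C h1 fun r hr => h2 ⟨r, hr⟩ 0 (WI_zero _)
  have a1 : (k : ℝ) ≤ l := Int.cast_le.mpr (l1.le (h3 _ k fun i => by
    obtain ⟨m, m1, m2⟩ := hk i
    exact hV (x i) ▸ (h2 _ _ m1).mono m2))
  have a2 : ((ord W (Matrix.of fun i j => τ i (x j)).det + 1 - ∑ i, (w i : ℤ) : ℤ) : ℝ) ≤ (-can τ W : ℤ) :=
    Int.cast_le.mpr (h4 τ H.hτ)
  push_cast at a2
  refine le_trans (add_le_add (Finset.sum_le_sum fun i _ => ?_) (mul_le_mul_of_nonneg_left a1 t0))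
    (((l2 t).mp (hLC W h1)).trans (mul_le_mul_of_nonneg_left (by linarith) (sub_nonneg.mpr t1)))
  have a3 : (κ i : ℝ) ≤ ord W (γ i : L) := by exact_mod_cast h2 _ _ (hκ i) (H.P.ne i)
  have a4 : 0 ≤ eps δ (Q i) * B (Q i) ∧ 0 ≤ (1 - eps δ (Q i)) * B (Q i) := by
    rcases eps_cases δ (Q i) with h | h <;> simp [h, hB]
  exact mul_le_mul (le_add_of_nonneg_right (mul_nonneg (sub_nonneg.mpr t1) a4.2)) a3 (Nat.cast_nonneg _)
    (add_nonneg a4.1 (mul_nonneg (sub_nonneg.mpr t1) a4.2))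

omit [Algebra.EssFiniteType ℂ L] [IsNoetherianRing R] in
lemma Ch.decompR (C : Ch R x X Z) {V : Derivation ℂ R R} {v : Derivation ℂ L L} (hV : ∀ r : R, (V r : L) = v r)
    (f : R) : V f = ∑ j, V (x j) * X j f := Subtype.ext (by
  rw [hV, C.decomp v]
  simp only [C.ext, AddSubmonoidClass.coe_finsetSum, MulMemClass.coe_mul, hV])

lemma exists_stop (p : ℕ → Prop) (N : ℕ) : ∃ k ≤ N, (∀ j < k, p j) ∧ (k = N ∨ ¬ p k) := by
  induction N with
  | zero => exact ⟨0, le_rfl, fun j hj => absurd hj (Nat.not_lt_zero j), Or.inl rfl⟩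
  | succ N ih =>
    obtain ⟨k, a1, a2, a3⟩ := ih
    by_cases h : p k
    · obtain rfl := a3.resolve_right (not_not.mpr h)
      exact ⟨k + 1, le_rfl, fun j hj => (Nat.lt_succ_iff_lt_or_eq.mp hj).elim (a2 j) (· ▸ h), Or.inl rfl⟩
    · exact ⟨k, by omega, a2, Or.inr h⟩

lemma Dt.gap (H : Dt n A R γ Q δ τ g B s) (C : Ch R x X Z) {t : ℝ} (t0 : 0 ≤ t) (t1 : t ≤ 1)
    (hLC : ∀ W, DivN n A Set.univ W → LCat n A δ τ B t W) {β η : ℝ} {M : ℕ} {T : AddSubmonoid ℝ}
    (hT : ∀ P, B P ∈ T) (β0 : 0 < β) (hβ : ∀ P, B P ≠ 0 → β ≤ B P) (hη : ∀ z ∈ T, 1 < z → 1 + η ≤ z)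
    (hM : 1 + η ≤ β * (M + 1)) (hE : DivN n A Set.univ E) (h0 : ∀ r ∈ R, Ge E 0 r)
    (hn : ¬ LCat n A δ τ B 1 E) :
    t ≤ (1 - t) * ∑ i : Fin (n + 1), ((n + 1 + i : ℕ) : ℝ) ∨ β ≤ (1 - t) * (n + 1) ∨
      1 + η - t ≤ (1 - t) * ((n + 1) * (M + 1)) := by
  obtain ⟨l, ⟨l1, -⟩, l2⟩ := H.loc C hE h0
  rw [l2, not_le] at hn
  simp only [coef, sub_self, zero_mul, add_zero, one_mul] at hn
  have hB : ∀ P, 0 ≤ B P := fun P => by
    by_cases h : B P = 0
    exacts [h.ge, β0.le.trans (hβ P h)]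
  have hc : ∀ i, eps δ (Q i) * B (Q i) = 0 ∨ (β ≤ eps δ (Q i) * B (Q i) ∧ eps δ (Q i) * B (Q i) ∈ T) := fun i => by
    rcases eps_cases δ (Q i) with h | h
    · exact Or.inl (by rw [h, zero_mul])
    · rw [h, one_mul]
      exact (eq_or_ne _ _).imp_right fun h => ⟨hβ _ h, hT _⟩
  have hc0 : ∀ i, 0 ≤ eps δ (Q i) * B (Q i) := fun i => (hc i).elim Eq.ge fun h => β0.le.trans h.1
  have hsum : ∀ (κ : ι → ℕ), ∀ i ∈ s, eps δ (Q i) * B (Q i) ≠ 0 →
      β * κ i ≤ ∑ i ∈ s, eps δ (Q i) * B (Q i) * κ i := fun κ i hi h =>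
    (mul_le_mul_of_nonneg_right ((hc i).resolve_left h).1 (Nat.cast_nonneg _)).trans
      (Finset.single_le_sum (f := fun i => eps δ (Q i) * B (Q i) * κ i)
        (fun j _ => mul_nonneg (hc0 j) (Nat.cast_nonneg _)) hi)
  let V : Derivation ℂ R R := ∑ i, (⟨_, H.hv _ (x i).2⟩ : R) • X i
  have hV : ∀ r : R, (V r : L) = (g⁻¹ • δ 0) r := fun r => by
    rw [C.decomp (g⁻¹ • δ 0), der_sum]
    simp only [Fin.isValue, Derivation.coe_smul, Pi.smul_apply, smul_eq_mul, AddSubmonoidClass.coe_finsetSum, MulMemClass.coe_mul, C.ext]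
  have hm : ∀ r : R, Ge E 1 (r : L) → r ∈ maximalIdeal R := fun r h =>
    by_contra fun hr => (un_of_not h0 hr).not_ge h
  by_cases hR : ∃ i0, V (x i0) ∉ maximalIdeal R
  · obtain ⟨i0, hi0⟩ := hR
    obtain ⟨u, hu⟩ := (notMem_maximalIdeal.mp hi0).exists_left_inv
    have hθ : ∀ r : R, (((u • V) r : R) : L) = ((u : L) • g⁻¹ • δ 0) r := fun r => by
      rw [Derivation.smul_apply, Derivation.smul_apply, ← hV]; rfl
    obtain ⟨y, N, hN, y1, y2⟩ := C.co.flow (θ := u • V) hu M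
    obtain ⟨Y, Z', C'⟩ := C.of_co ⟨N, hN⟩
    choose κ κ1 κ2 κ3 using fun i => exists_stop (fun j => (u • V)^[j] (γ i) ∈ maximalIdeal R) (M + 1)
    have a1 := H.key C' t0 t1 hLC hB hV (wr_pos i0 M) ⟨i0, i0, Or.inr (wr_self _ _)⟩ (k := -1)
      (fun j => ⟨_, by
        have := Ideal.mul_mem_left _ (V (x i0)) (y2 j)
        rwa [Derivation.smul_apply, smul_eq_mul, ← mul_assoc, mul_comm _ u, hu, one_mul] at this, by omega⟩)
      fun i => C'.co.flow_ord (C'.decompR hθ) y1 y2 (κ1 i) (κ2 i)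
    have a2 : ∑ j, (wr i0 M j : ℝ) ≤ (n + 1) * (M + 1) := by
      simpa only [mul_add, mul_one, Finset.card_univ, Fintype.card_fin, smul_add, nsmul_eq_mul, Nat.cast_add, Nat.cast_one] using Finset.sum_le_card_nsmul Finset.univ (fun j => (wr i0 M j : ℝ)) (M + 1) fun j _ => by
        have : wr i0 M j ≤ M + 1 := by unfold wr; split_ifs <;> omega
        exact_mod_cast this
    suffices 1 + η ≤ ∑ i ∈ s, eps δ (Q i) * B (Q i) * κ i by
      have := mul_le_mul_of_nonneg_left a2 (sub_nonneg.mpr t1)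
      push_cast at a1
      exact Or.inr (Or.inr (by linarith))
    by_cases hb : ∃ i ∈ s, eps δ (Q i) * B (Q i) ≠ 0 ∧ κ i = M + 1
    · obtain ⟨i, b1, b2, b3⟩ := hb
      have := hsum κ i b1 b2
      rw [b3] at this
      exact hM.trans (by exact_mod_cast this)
    have a3 : Reg E l ((u : L) • g⁻¹ • δ 0) := (l1.smul (h0 _ u.2)).mono (zero_add _).ge
    have a4 : l ≤ 0 := by
      have b1 := a3.ge (h0 _ (y i0).2)
      rw [← hθ, y1] at b1
      have := b1 one_ne_zero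
      rw [OneMemClass.coe_one, ord_one] at this
      omega
    have a5 : ∑ i ∈ s, eps δ (Q i) * B (Q i) * ord E (γ i : L) ≤ (∑ i ∈ s, eps δ (Q i) * B (Q i) * κ i) * -l := by
      rw [Finset.sum_mul]
      refine Finset.sum_le_sum fun i hi => ?_
      by_cases h : eps δ (Q i) * B (Q i) = 0
      · simp [h]
      have b1 := un_of_not h0 ((κ3 i).resolve_left fun h' => hb ⟨i, hi, h, h'⟩)
      have b2 : ∀ j : ℕ, Ge E (ord E (γ i : L) + j * l) (((u • V)^[j] (γ i) : R) : L) := fun j => by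
        induction j with
        | zero => simpa using Ge.self _
        | succ j ih =>
          rw [Function.iterate_succ_apply', hθ]
          exact (a3.ge ih).mono (by push_cast; linarith only [])
      have b3 := b2 _ b1.1
      rw [b1.2] at b3
      rw [mul_assoc _ (κ i : ℝ)]
      refine mul_le_mul_of_nonneg_left ?_ (hc0 i)
      exact_mod_cast (by linarith only [b3] : ord E (γ i : L) ≤ κ i * -l)
    refine hη _ (sum_mem fun i _ => ?_) (by_contra fun h => ?_)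
    · rw [mul_comm, ← nsmul_eq_mul]
      exact nsmul_mem ((hc i).elim (· ▸ zero_mem _) And.right) _
    · have b1 : (0 : ℝ) ≤ -l := by exact_mod_cast neg_nonneg.mpr a4
      have := mul_le_mul_of_nonneg_right (not_lt.mp h) b1
      linarith only [hn, a5, this]
  push Not at hR
  have hx : maximalIdeal R ≤ WI x 1 1 := C.co.max_le.trans (span_le_WI fun _ => le_rfl)
  by_cases hS : ∃ i ∈ s, eps δ (Q i) * B (Q i) ≠ 0
  · obtain ⟨i, b1, b2⟩ := hS
    have a1 := H.key C t0 t1 hLC hB hV (w := 1) (fun _ => le_rfl) ⟨0, 0, Or.inr rfl⟩ (k := 0)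
      (fun j => ⟨1, hx (hR j), by simp⟩) (κ := 1) fun i => hx (H.P.M i)
    have := hsum 1 i b1 b2
    exact Or.inr (Or.inl (by simpa only [Pi.one_apply, Nat.cast_one, mul_one, Finset.sum_const, Finset.card_univ, Fintype.card_fin, nsmul_eq_mul, Nat.cast_add] using this.trans ((le_add_of_nonneg_right (by simp)).trans a1)))
  push Not at hS
  rw [Finset.sum_eq_zero fun i hi => by rw [hS i hi, zero_mul], zero_add, Int.cast_pos] at hn
  obtain ⟨e, s', F, o⟩ := hE.frame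
  choose N hN using fun i => F.exists_reg H.ht o (Z i)
  obtain ⟨c, hc⟩ := (Set.finite_range fun i => 1 - N i).bddAbove
  have a1 : ∀ (r : R) (j : ℕ), Ge E j ((V^[j] r : R) : L) := fun r j => by
    induction j with
    | zero => exact h0 _ r.2
    | succ j ih =>
      rw [Function.iterate_succ_apply', hV]
      exact (l1.ge ih).mono (by omega)
  obtain ⟨y, N', hN', y1⟩ := C.co.nilp V (fun r => C.decompR hV r ▸ sum_mem fun j _ =>
    Ideal.mul_mem_right _ _ (hR j)) (c := c.toNat + 1) fun r _ => C.co.sq (hm _ ((a1 r _).mono (by omega)))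
      fun i => hm _ (C.ext i _ ▸ ((hN i).ge (a1 r _)).mono (by have := hc ⟨i, rfl⟩; dsimp only at this; omega))
  obtain ⟨Y, Z', C'⟩ := C.of_co ⟨N', hN'⟩
  have a2 := H.key C' t0 t1 hLC hB hV (w := fun i => n + 1 + i) (fun _ => by omega) (by
    rcases n.eq_zero_or_pos with h | h
    exacts [⟨0, 0, Or.inr (by simp [h])⟩, ⟨⟨1, by omega⟩, 0, Or.inl rfl⟩]) (k := 1)
    (fun j => ⟨_, y1 j, by omega⟩) (κ := 0) fun _ => WI_zero _
  exact Or.inl (by simpa only [Nat.cast_add, Nat.cast_one, Pi.zero_apply, CharP.cast_eq_zero, mul_zero, Finset.sum_const_zero, Int.cast_one, mul_one, zero_add] using a2)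

omit R γ Q x X Z g s [Algebra.EssFiniteType ℂ L] in
lemma ess (A : Subalgebra ℂ L) [Algebra.Smooth ℂ A] [IsFractionRing A L] : Algebra.EssFiniteType ℂ L :=
  have : Algebra.EssFiniteType A L := .of_isLocalization L (nonZeroDivisors A)
  .comp ℂ A L

omit R γ Q x X Z g s in
lemma DivN.zero (ht : Algebra.trdeg ℂ L = (n + 1 : ℕ)) (hE : DivN n A Set.univ E) :
    ∃ f : Fin (n + 1) → L, ∀ D : Derivation ℂ L L, (∀ j, D (f j) = 0) → D = 0 := by
  obtain ⟨e, s, F, o⟩ := hE.frame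
  exact ⟨Fin.cons e s, fun D h => F.ext ht o (h 0) fun i => h i.succ⟩

omit R γ Q x X Z g s [Algebra.EssFiniteType ℂ L] in
lemma DivN.max (hE : DivN n A Set.univ E) : ∃ m : Ideal A, m.IsMaximal ∧ ∀ a : A, Ge E 1 (a : L) → a ∈ m := by
  obtain ⟨m, h1, h2⟩ := Ideal.exists_le_maximal _
    (cenI_prime A.val.toRingHom fun a => (divN_iff.mp hE).2.1 a a.2).ne_top
  exact ⟨m, h1, fun a ha => h2 ha⟩

omit γ Q x X Z g s [Algebra.EssFiniteType ℂ L] [IsNoetherianRing R] in
lemma Gm.cen (G : Gm A R) (hE : DivN n A Set.univ E) {m : Ideal A} (hm : ∀ a : A, Ge E 1 (a : L) → a ∈ m)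
    (hM : ∀ a : A, (a : L) ∈ Mx R ↔ a ∈ m) : ∀ r ∈ R, Ge E 0 r :=
  G.ge (divN_iff.mp hE).2.1 fun b hb b0 hb' h =>
    one_not_Mx (inv_mul_cancel₀ b0 ▸ Mx_mul hb' ((hM ⟨b, hb⟩).mpr (hm _ h)))

omit R γ Q x X Z g s B A E [Algebra.EssFiniteType ℂ L] in
theorem gap (ht : Algebra.trdeg ℂ L = (n + 1 : ℕ)) {U : Set (Subalgebra ℂ L)}
    (hU : ∀ A ∈ U, Algebra.Smooth ℂ A ∧ IsFractionRing A L) (hδ : LinearIndependent L δ)
    (hτ : LinearIndependent L τ) (B : Val L →₀ ℝ) {t : ℝ} (t0 : 0 ≤ t) (t1 : t ≤ 1) {β η : ℝ} {M : ℕ}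
    {T : AddSubmonoid ℝ} (hT : ∀ P, B P ∈ T) (β0 : 0 < β) (hβ : ∀ P, B P ≠ 0 → β ≤ B P)
    (hη : ∀ z ∈ T, 1 < z → 1 + η ≤ z) (hM : 1 + η ≤ β * (M + 1)) (h : LCN n U δ τ B t)
    (hn : ¬ LCN n U δ τ B 1) :
    t ≤ (1 - t) * ∑ i : Fin (n + 1), ((n + 1 + i : ℕ) : ℝ) ∨ β ≤ (1 - t) * (n + 1) ∨
      1 + η - t ≤ (1 - t) * ((n + 1) * (M + 1)) := by
  obtain ⟨A, hA, E, hE, hn⟩ : ∃ A ∈ U, ∃ E, DivN n A Set.univ E ∧ ¬ LCat n A δ τ B 1 E := by
    by_contra hc
    exact hn fun A hA E hE => by_contra fun h => hc ⟨A, hA, E, hE, h⟩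
  obtain ⟨_, _⟩ := hU A hA
  have := ess A
  obtain ⟨f, hf⟩ := hE.zero ht
  obtain ⟨m, _, hm⟩ := hE.max
  obtain ⟨R, _, _, x, X, Z, G, C, hx, hM'⟩ := exists_germ hτ hf m
  obtain ⟨ι, γ, Q, P⟩ := C.exists_pr G hx
  obtain ⟨g, g0, hv, hv'⟩ := P.gcd _ (hδ.ne_zero 0)
  have hfin : (Q ⁻¹' B.support).Finite := B.support.finite_toSet.preimage fun i _ j _ h => by_contra fun hij => by
    have := P.off i j hij
    rw [h, P.one] at this
    exact one_ne_zero this
  exact Dt.gap (s := hfin.toFinset) ⟨P, G, ht, hδ, hτ, g0, hv, hv', fun i hi =>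
    Finsupp.notMem_support_iff.mp (mt hfin.mem_toFinset.mpr hi)⟩ C t0 t1 (h A hA) hT β0 hβ hη hM hE
      (G.cen hE hm hM') hn

end Pool.Agent.MP_c54dba_ag.H70

end

section

/-! The extremal vector field. -/

set_option autoImplicit false

namespace Pool.Agent.MP_c54dba_ag.H70

open MvPolynomial IsLocalRing

variable {L : Type} [Field L] [Algebra ℂ L] {n : ℕ} {A : Subalgebra ℂ L} {x : Fin (n + 1) → L}
  {τ : Fin (n + 1) → Derivation ℂ L L} {δ : Fin 1 → Derivation ℂ L L}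

/-- affine space with the field `x 1 ∂ 0 + ... + x n ∂ (n - 1) + x 0 ^ 2 ∂ n` -/
structure Ex (A : Subalgebra ℂ L) (x : Fin (n + 1) → L) (τ : Fin (n + 1) → Derivation ℂ L L)
    (δ : Fin 1 → Derivation ℂ L L) : Prop where
  ht : Algebra.trdeg ℂ L = (n + 1 : ℕ)
  sm : Algebra.Smooth ℂ A
  fr : IsFractionRing A L
  mem : ∀ i, x i ∈ A
  gen : ∀ a ∈ A, ∃ p : MP (n + 1), a = aeval x p
  dual : ∀ i j, τ i (x j) = if i = j then 1 else 0
  zero : ∀ D : Derivation ℂ L L, (∀ i, D (x i) = 0) → D = 0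
  orig : ∃ m : Ideal A, m.IsMaximal ∧ ∀ i, ⟨x i, mem i⟩ ∈ m
  v1 : ∀ i : Fin n, δ 0 (x i.castSucc) = x i.succ
  v2 : δ 0 (x (Fin.last n)) = x 0 ^ 2

lemma exists_ex (n : ℕ) : ∃ (L : Type) (_ : Field L) (_ : Algebra ℂ L) (A : Subalgebra ℂ L) (x : Fin (n + 1) → L)
    (τ : _) (δ : _), Ex A x τ δ := by
  let K := FractionRing (MP (n + 1))
  let φ := IsScalarTower.toAlgHom ℂ (MP (n + 1)) K
  let e := AlgEquiv.ofInjective φ (IsFractionRing.injective _ _)
  have := Algebra.FormallyEtale.of_isLocalization (Rₘ := K) (nonZeroDivisors (MP (n + 1)))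
  choose τ hτ using fun i => ext_der (T := K) (pderiv (R := ℂ) (σ := Fin (n + 1)) i)
  obtain ⟨v, hv⟩ := ext_der (T := K) (mkDerivation ℂ (Fin.snoc (α := fun _ => MP (n + 1))
    (fun i : Fin n => X i.succ) (X 0 ^ 2)))
  have : Algebra.Smooth ℂ (MP (n + 1)) := {}
  have h0 : ∀ p, φ p = aeval (fun i => φ (X i)) p := fun p => by
    rw [← comp_aeval_apply, aeval_X_left_apply]
  refine ⟨K, inferInstance, inferInstance, φ.range, fun i => φ (X i), τ, fun _ => v, ?_, .of_equiv e,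
    .of_field _ _ fun z => ?_, fun i => ⟨_, rfl⟩, ?_, fun i j => (hτ i _).trans ?_, fun D hD => ?_, ?_,
    fun i => (hv _).trans (by simp only [mkDerivation_X, Fin.snoc_castSucc, φ, IsScalarTower.coe_toAlgHom']), (hv _).trans (by simp only [mkDerivation_X, Fin.snoc_last, map_pow, φ, IsScalarTower.coe_toAlgHom'])⟩
  · have h1 := trdeg_add_eq ℂ (MP (n + 1)) (A := K)
    have := IsLocalization.isAlgebraic K (nonZeroDivisors (MP (n + 1)))
    rw [MvPolynomial.trdeg_of_isDomain, trdeg_eq_zero] at h1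
    simpa only [Nat.cast_add, Nat.cast_one, Cardinal.mk_fintype, Fintype.card_fin, Cardinal.lift_id, add_zero] using h1.symm
  · obtain ⟨a, b, -, rfl⟩ := IsFractionRing.div_surjective (MP (n + 1)) z
    exact ⟨e a, e b, rfl⟩
  · rintro _ ⟨p, rfl⟩
    exact ⟨p, h0 p⟩
  · rw [pderiv_X, Pi.single_apply, apply_ite (algebraMap _ K), map_one, map_zero]
    exact if_congr eq_comm rfl rfl
  · have h1 : ∀ p, D (φ p) = 0 := fun p => by rw [h0, der_aeval]; simp [hD]
    ext z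
    obtain ⟨a, b, -, rfl⟩ := IsFractionRing.div_surjective (MP (n + 1)) z
    rw [D.leibniz_div, show D (algebraMap _ K a) = 0 from h1 a, show D (algebraMap _ K b) = 0 from h1 b]
    simp only [inv_pow, smul_eq_mul, mul_zero, sub_self, Derivation.coe_zero, Pi.zero_apply]
  · refine ⟨RingHom.ker (constantCoeff.comp e.symm.toRingEquiv.toRingHom), RingHom.ker_isMaximal_of_surjective _
      fun c => ⟨e (C c), by simp⟩, fun i => ?_⟩
    rw [RingHom.mem_ker, show (⟨φ (X i), _⟩ : φ.range) = e (X i) from rfl]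
    simp

variable (H : Ex A x τ δ)
include H

lemma Ex.x0 (i : Fin (n + 1)) : x i ≠ 0 := fun h => by simpa [h] using H.dual i i

lemma Ex.hδ : LinearIndependent L δ :=
  linearIndependent_unique_iff.mpr fun h => pow_ne_zero 2 (H.x0 0) (by
    rw [← H.v2, show δ 0 = 0 from h, Derivation.zero_apply])

lemma Ex.hτ : LinearIndependent L τ := Fintype.linearIndependent_iff.mpr fun c hc j => by
  have := DFunLike.congr_fun hc (x j)
  rw [der_sum] at this
  simpa only [Derivation.coe_smul, Pi.smul_apply, H.dual, smul_eq_mul, mul_ite, mul_one, mul_zero, Finset.sum_ite_eq', Finset.mem_univ, ↓ reduceIte, Derivation.coe_zero, Pi.zero_apply] using this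

lemma Ex.pres {D : Derivation ℂ L L} (h : ∀ i, D (x i) ∈ A) {a : L} (ha : a ∈ A) : D a ∈ A := by
  obtain ⟨p, rfl⟩ := H.gen a ha
  rw [der_aeval]
  exact sum_mem fun j _ => mul_mem (aeval_mem H.mem _) (h j)

lemma Ex.germ (hn : 1 ≤ n) (m : Ideal A) [m.IsMaximal] :
    ∃ (R : Subalgebra ℂ L) (_ : IsLocalRing R) (_ : IsNoetherianRing R) (ι : Type) (γ : ι → R) (Q : _)
      (y : Fin (n + 1) → R) (Y : _) (Z : _), Dt n A R γ Q δ τ 1 0 ∅ ∧ Ch R y Y Z ∧
      (∀ j, ∃ c, (y j : L) = x j - algebraMap ℂ L c) ∧ ∀ a : A, (a : L) ∈ Mx R ↔ a ∈ m := by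
  have := H.sm
  have := H.fr
  obtain ⟨R, _, _, x', X, Z, G, C, hx, hM⟩ := exists_germ H.hτ H.zero m
  obtain ⟨ι, γ, Q, P⟩ := C.exists_pr G hx
  choose c hc using fun j => C.co.res' ⟨x j, G.le _ (H.mem j)⟩
  have hv : ∀ i, δ 0 (x i) ∈ A := fun i => Fin.lastCases (H.v2 ▸ pow_mem (H.mem 0) 2) (fun i => H.v1 i ▸ H.mem _) i
  obtain ⟨Y, Z', C'⟩ := C.of_co (C.co.change hc fun c' h => funext fun k => by_contra fun h0 =>
    const_not_Mx (R := R) h0 (by
      have h1 := sum_mem (t := Finset.univ) fun i _ => Mx_mul (G.le _ (H.pres (D := τ k)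
        (fun j => by rw [H.dual]; split_ifs; exacts [one_mem _, zero_mem _]) (hx i))) (coe_mem_Mx.mpr (h i))
      simp only [AddSubmonoidClass.coe_finsetSum, MulMemClass.coe_mul, ← C.ext, Finset.mul_sum, ← mul_assoc] at h1
      rw [Finset.sum_comm] at h1
      simp only [← Finset.sum_mul, ← C.decomp] at h1
      simpa [H.dual] using h1))
  refine ⟨R, inferInstance, inferInstance, ι, γ, Q, _, Y, Z', ⟨P, G, H.ht, H.hδ, H.hτ, one_ne_zero,
    fun r hr => ?_, fun i => by_contra fun h => ?_, fun _ _ => rfl⟩, C', fun j => ⟨c j, rfl⟩, hM⟩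
  · rw [inv_one, one_smul, C.decomp]
    exact sum_mem fun i _ => mul_mem (G.le _ (H.pres hv (hx i))) (C.mem i hr)
  · rw [inv_one, one_smul] at h
    have h1 : ∀ j, Ge (Q i) 1 (δ 0 (x j)) := fun j => by_contra fun h' =>
      h ⟨x j, G.le _ (H.mem j), (P.ge i _ (G.le _ (hv j))).un h'⟩
    have h2 : ∀ j, Ge (Q i) 1 (x j) := fun j => Fin.cases (fun h0 => by
      have := h1 (Fin.last n)
      rw [H.v2] at this
      have := this (pow_ne_zero 2 h0)
      rw [ord_pow] at this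
      omega) (fun j => H.v1 j ▸ h1 _) j
    obtain ⟨-, -, s, s1, s2⟩ := divN_iff.mp (P.div i)
    obtain ⟨p, hp⟩ := H.gen _ (s1 ⟨0, hn⟩)
    have h3 : ∀ p : MP (n + 1), ∃ c, Ge (Q i) 1 (aeval x p - algebraMap ℂ L c) := fun p => by
      induction p using MvPolynomial.induction_on with
      | C a => exact ⟨a, by simpa using Ge.zero _⟩
      | add p q hp hq =>
        obtain ⟨a, ha⟩ := hp
        obtain ⟨b, hb⟩ := hq
        exact ⟨a + b, by rw [map_add, map_add, add_sub_add_comm]; exact ha.add hb⟩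
      | mul_X p j _ => exact ⟨0, by simpa using (P.ge i _ (G.le _ (aeval_mem H.mem p))).mul0 (h2 j)⟩
    obtain ⟨c, hc⟩ := h3 p
    refine (s2 (MvPolynomial.X ⟨0, hn⟩ - MvPolynomial.C c) fun h0 => ?_).not_ge (by simpa [hp] using hc)
    simpa using congrArg (pderiv ⟨0, hn⟩) h0

lemma Ex.disc {E : Val L} (hE : DivN n A Set.univ E) : ∑ j, ord E (x j) ≤ 1 + can τ E := by
  have := H.sm
  have := H.fr
  have := ess A
  obtain ⟨e, s, F, o⟩ := hE.frame
  let M : Matrix _ _ L := Matrix.of fun i j => τ i ((Fin.cons e s : Fin (n + 1) → L) j)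
  have h1 : ∀ c : Fin (n + 1) → L, ∀ j, (∑ i, c i • τ i) (x j) = c j := fun c j => by
    rw [der_sum]; simp only [Derivation.coe_smul, Pi.smul_apply, H.dual, smul_eq_mul, mul_ite, mul_one, mul_zero, Finset.sum_ite_eq', Finset.mem_univ, ↓ reduceIte]
  have h2 : M.det ≠ 0 := fun h0 => by
    obtain ⟨c, c0, hc⟩ := Matrix.exists_vecMul_eq_zero_iff.mpr h0
    refine c0 (funext fun j => ?_)
    rw [← h1 c j, F.ext H.ht o (D := ∑ i, c i • τ i) (by rw [der_sum]; exact congrFun hc 0)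
      fun i => by rw [der_sum]; exact congrFun hc i.succ]
    rfl
  choose N hN using fun i => F.bdd H.ht (τ i)
  have h3 := (le_can (w := E) (fun f hf => ge_det (a := N) (b := 0) fun i j => (add_zero (N i)).symm ▸ hN i _ (hf j))
    (Fin.cons e s) (fun j => Fin.cases (F.ge1.mono zero_le_one) F.ri.ge' j) h2).2
  have h4 := Matrix.nonsing_inv_mul M h2.isUnit
  have h5 : ∀ k j, (∑ i, M⁻¹ k i • τ i) ((Fin.cons e s : Fin (n + 1) → L) j) = if k = j then 1 else 0 := fun k j => by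
    rw [der_sum, ← Matrix.one_apply, ← h4]; rfl
  have h6 := ge_det (w := E) (M := M⁻¹) (a := Fin.cons (-1) 0) (b := fun j => ord E (x j)) (fun k j => by
    rw [← h1 (M⁻¹ k), add_comm]
    refine F.reg H.ht o (D := ∑ i, M⁻¹ k i • τ i) ((h5 k 0).symm ▸ ?_) (fun i => (h5 k i.succ).symm ▸ ?_) _
    · refine Fin.cases (by simpa using Ge.one) (fun k => by simpa using Ge.zero _) k
    · refine Fin.cases (by rw [if_neg (Fin.succ_ne_zero i).symm]; exact Ge.zero _) (fun k => ?_) k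
      split_ifs
      exacts [by simpa using Ge.one, Ge.zero _]) (by rw [Matrix.det_nonsing_inv, Ring.inverse_eq_inv]; exact inv_ne_zero h2)
  rw [Matrix.det_nonsing_inv, Ring.inverse_eq_inv, ord_inv, Fin.sum_univ_succ] at h6
  simp only [Fin.cons_zero, Fin.cons_succ, Pi.zero_apply, Finset.sum_const_zero] at h6
  replace h3 : -can τ E ≤ ord E M.det := h3
  omega

lemma Ex.lc (hn : 1 ≤ n) {t : ℝ} (t1 : t ≤ 1) (h : t = (1 - t) * ∑ i : Fin (n + 1), ((n + 1 + i : ℕ) : ℝ)) :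
    LCN n {A} δ τ 0 t := by
  intro A' hA E hE
  obtain rfl : A = A' := hA.symm
  have := H.sm
  have := H.fr
  have := ess A
  obtain ⟨m, _, hm⟩ := hE.max
  obtain ⟨R, _, _, ι, γ, Q, y, Y, Z, D, C, hy, hM⟩ := H.germ hn m
  obtain ⟨k, ⟨k1, -⟩, k2⟩ := D.loc C hE (D.G.cen hE hm hM)
  rw [inv_one, one_smul] at k1
  have h1 : ∀ i : Fin (n + 1), ord E (x 0) + i * k ≤ ord E (x i) := fun i => by
    induction i using Fin.induction with
    | zero => simp
    | succ i ih =>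
      have := k1 (x i.castSucc) (H.v1 i ▸ H.x0 _)
      rw [H.v1] at this
      simp only [Fin.val_castSucc, Fin.val_succ] at ih ⊢
      push_cast
      linarith only [ih, this]
  have h2 := k1 (x (Fin.last n)) (H.v2 ▸ pow_ne_zero 2 (H.x0 0))
  have h3 := h1 (Fin.last n)
  rw [H.v2, ord_pow] at h2
  rw [Fin.val_last] at h3
  have h4 : ∑ i : Fin (n + 1), ((n + 1 + i : ℕ) : ℤ) * k ≤ 1 + can τ E :=
    (Finset.sum_le_sum fun i _ => by have := h1 i; push_cast at h2 ⊢; linarith only [h2, h3, this]).trans (H.disc hE)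
  refine (k2 t).mpr ?_
  have h5 : (Matrix.of fun i j => τ i (y j)) = 1 := Matrix.ext fun i j => by
    obtain ⟨c, hc⟩ := hy j
    simp [hc, H.dual, Matrix.one_apply]
  rw [h5, Matrix.det_one, ord_one, Finset.sum_empty, zero_add, Int.cast_zero, add_zero]
  nth_rewrite 1 [h]
  rw [mul_assoc, Finset.sum_mul]
  exact mul_le_mul_of_nonneg_left (by exact_mod_cast h4) (sub_nonneg.mpr t1)

lemma Ex.not_lc (hn : 1 ≤ n) : ¬ LCN n {A} δ τ 0 1 := fun h => by
  have := H.sm
  have := H.fr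
  have := ess A
  obtain ⟨m, _, hm⟩ := H.orig
  obtain ⟨R, _, _, ι, γ, Q, y, Y, Z, D, C, hy, hM⟩ := H.germ hn m
  replace hy : ∀ j, (y j : L) = x j := fun j => by
    obtain ⟨c, hc⟩ := hy j
    have := sub_mem ((hM _).mpr (hm j)) (coe_mem_Mx.mpr (C.co.xM j))
    rw [hc, sub_sub_cancel] at this
    rw [hc, of_not_not (mt const_not_Mx (not_not.mpr this)), map_zero, sub_zero]
  have hV : ∀ r : R, ((∑ i, (⟨_, D.hv _ (y i).2⟩ : R) • Y i) r : L) = ((1 : L)⁻¹ • δ 0) r := fun r => by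
    rw [C.decomp ((1 : L)⁻¹ • δ 0), der_sum]
    simp only [inv_one, Fin.isValue, one_smul, Derivation.coe_smul, Pi.smul_apply, smul_eq_mul, AddSubmonoidClass.coe_finsetSum, MulMemClass.coe_mul, C.ext]
  have := D.key C zero_le_one le_rfl (h A rfl) (fun _ => le_rfl) hV (w := fun i => n + 1 + i) (fun _ => by omega)
    ⟨⟨1, by omega⟩, 0, Or.inl rfl⟩ (k := 1) (fun i => Fin.lastCases ⟨_, by
      rw [show (∑ i, (⟨_, D.hv _ (y i).2⟩ : R) • Y i) (y (Fin.last n)) = y 0 * y 0 from Subtype.ext (by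
        rw [hV, inv_one, one_smul, hy, H.v2, MulMemClass.coe_mul, hy, pow_two])]
      exact WI_mul (WI_x 0) (WI_x 0), by simp only [Fin.val_last, Fin.val_zero]; omega⟩ (fun i => ⟨_, by
      rw [show (∑ i, (⟨_, D.hv _ (y i).2⟩ : R) • Y i) (y i.castSucc) = y i.succ from Subtype.ext (by
        rw [hV, inv_one, one_smul, hy, H.v1, hy])]
      exact WI_x _, by simp only [Fin.val_succ, Fin.val_castSucc]; omega⟩) i) (κ := 0) fun _ => WI_zero _
  norm_num only [Nat.cast_add, zero_mul] at this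

omit H in
lemma sum_wt (n : ℕ) : ∑ i : Fin (n + 1), ((n + 1 + i : ℕ) : ℝ) = (n + 1) * (3 * (n + 1) - 1) / 2 := by
  have : ∀ k : ℕ, ∑ i : Fin k, ((n + 1 + i : ℕ) : ℝ) = k * (n + 1) + k * (k - 1) / 2 := fun k => by
    induction k with
    | zero => simp
    | succ k ih => simp only [Fin.sum_univ_castSucc, Fin.val_castSucc, Fin.val_last, ih]; push_cast; ring
  rw [this]; push_cast; ring

end Pool.Agent.MP_c54dba_ag.H70

end
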